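import Pool.Agent.H13.EV.Defs

/-!
# Larsen's question for hyperelliptic Jacobians, even degree (MP_6b5a9a_nt): module ODD
-/

open Polynomial

namespace Pool.Agent.H13.EV.ODDm

open Pool.Agent.H62.HE Pool.Agent.H13.EV

universe u

section

variable {k : Type u} [Field k] {f : k[X]}

theorem mk0_ne {u : k[X]} (hu : u ≠ 0) : (⟨u, 0⟩ : HR k f) ≠ 0 := by
  intro h
  apply hu
  have := congrArg QuadraticAlgebra.re h
  simpa using this

theorem II_ne_zero {u w : k[X]} (hu : u ≠ 0) : II f u w ≠ 0 := by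
  intro h
  have h1 : (⟨u, 0⟩ : HR k f) ∈ II f u w := Ideal.subset_span (by simp)
  rw [h, Ideal.zero_eq_bot, Ideal.mem_bot] at h1
  exact mk0_ne hu h1

theorem pt_ne_zero (x y : k) : pt f x y ≠ 0 := II_ne_zero (X_sub_C_ne_zero x)

variable [IsDomain (HR k f)]

theorem eqv_of {I : Ideal (HR k f)} (h : I.IsPrincipal) (h0 : I ≠ 0) : Eqv I 1 :=
  Eqv.of_isPrincipal h (by rwa [← Ideal.zero_eq_bot])

theorem pt_mul_neg (hP : T_PT.{u}) (h2 : (2 : k) ≠ 0) (hsq : Squarefree f) {x y : k}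
    (hy : y ^ 2 = f.eval x) : Eqv (pt f x y * pt f x (-y)) 1 := by
  rw [hP k f x y h2 hsq hy]
  exact Eqv.of_span (mk0_ne (X_sub_C_ne_zero x))

theorem pt_mul_self (hP : T_PT.{u}) (h2 : (2 : k) ≠ 0) (hsq : Squarefree f) {e : k}
    (he : f.eval e = 0) : Eqv (pt f e 0 * pt f e 0) 1 := by
  have := pt_mul_neg hP h2 hsq (x := e) (y := 0) (by rw [he]; ring)
  rwa [neg_zero] at this

theorem mul_one_left {I J : Ideal (HR k f)} (h : Eqv I 1) : Eqv (I * J) J := by
  have := h.mul (Eqv.refl J)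
  rwa [one_mul] at this

theorem mul_one_right {I J : Ideal (HR k f)} (h : Eqv I 1) : Eqv (J * I) J := by
  have := (Eqv.refl J).mul h
  rwa [mul_one] at this

/-- a product of Weierstrass points is equivalent to a product of distinct ones -/
theorem reduce (hP : T_PT.{u}) (h2 : (2 : k) ≠ 0) (hsq : Squarefree f) {ι : Type u} (e : ι → k)
    (he : ∀ i, f.eval (e i) = 0) (s : Finset ι) :
    ∃ E : Finset k, (∀ a ∈ E, f.eval a = 0) ∧
      Eqv (∏ i ∈ s, pt f (e i) 0) (∏ a ∈ E, pt f a 0) := by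
  classical
  induction s using Finset.induction_on with
  | empty => exact ⟨∅, by simp, by rw [Finset.prod_empty, Finset.prod_empty]; exact Eqv.refl _⟩
  | insert a s ha ih =>
    obtain ⟨E, hE, hEq⟩ := ih
    rw [Finset.prod_insert ha]
    by_cases hmem : e a ∈ E
    · refine ⟨E.erase (e a), fun b hb => hE b (Finset.mem_of_mem_erase hb), ?_⟩
      have h1 := (Eqv.refl (pt f (e a) 0)).mul hEq
      rw [← Finset.mul_prod_erase E _ hmem, ← mul_assoc] at h1
      exact h1.trans (mul_one_left (pt_mul_self hP h2 hsq (he a)))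
    · refine ⟨insert (e a) E, ?_, ?_⟩
      · intro b hb
        rcases Finset.mem_insert.1 hb with rfl | hb
        · exact he a
        · exact hE b hb
      · rw [Finset.prod_insert hmem]
        exact (Eqv.refl (pt f (e a) 0)).mul hEq

/-- rewriting with a line -/
theorem line_eqv {A P Q Q' : Ideal (HR k f)} (hA : Eqv (A * A) 1) (hQ : Eqv (Q * Q') 1)
    (h : Eqv (A * P * Q) 1) : Eqv P (A * Q') := by
  have h1 : Eqv (P * (A * A) * (Q * Q')) P := by
    have := (mul_one_right (J := P) hA).mul hQ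
    rwa [mul_one] at this
  have h2 : P * (A * A) * (Q * Q') = A * P * Q * (A * Q') := by ring
  rw [h2] at h1
  exact h1.symm.trans (mul_one_left h)

end

/-- **Module ODD.** -/
theorem odd (hL : T_LINE.{u}) (hR : T_RED.{u}) (hP : T_PT.{u}) : T_ODD.{u} := by
  intro k M _ _ _ φ Γ₀ _ v g f _ B β ι _ x y S N h2 hg hmon hsq hdeg hB hβ hNT hN hy hyf hS hns
    hprin
  classical
  have key : ∀ i : {i // i ∉ S}, ∃ (e : k) (θ η : Fin (2 * g - 1) → k), f.eval e = 0 ∧
      (∀ j, v (φ β) < v (θ j)) ∧ (∀ j, η j ≠ 0) ∧ (∀ j, η j ^ 2 = f.eval (θ j)) ∧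
      (pt f e 0 * pt f (x i) (y i) * ∏ j, pt f (θ j) (η j)).IsPrincipal := by
    rintro ⟨i, hi⟩
    obtain ⟨e, he, hve, hvx, hlt⟩ := hns i hi
    obtain ⟨θ, η, h1, h2', h3, h4⟩ := hL k Γ₀ v g f e (x i) (y i) B (φ β) h2 hg hmon hsq hdeg hB hβ
      hve hvx he (hy i) (hyf i) hlt
    exact ⟨e, θ, η, he, h1, h2', h3, h4⟩
  choose e θ η he hθ hη hηf hpr using key
  set J : Type u := {i // i ∈ S} ⊕ (Σ _ : {i // i ∉ S}, Fin (2 * g - 1)) with hJ
  set X' : J → k := Sum.elim (fun i => x i) (fun p => θ p.1 p.2) with hX'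
  set Y' : J → k := Sum.elim (fun i => y i) (fun p => - η p.1 p.2) with hY'
  have hlarge : ∀ j, v (φ β) < v (X' j) := by
    rintro (⟨i, hi⟩ | ⟨i, j⟩)
    · exact hS i hi
    · exact hθ i j
  have hYne : ∀ j, Y' j ≠ 0 := by
    rintro (i | ⟨i, j⟩)
    · exact hy i
    · exact neg_ne_zero.2 (hη i j)
  have hYf : ∀ j, Y' j ^ 2 = f.eval (X' j) := by
    rintro (i | ⟨i, j⟩)
    · exact hyf i
    · change (- η i j) ^ 2 = f.eval (θ i j)
      rw [neg_sq, hηf]
  set E : Ideal (HR k f) := ∏ j, pt f (X' j) (Y' j) with hE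
  set m : Ideal (HR k f) := ∏ i, pt f (e i) 0 with hm
  set I : Ideal (HR k f) := ∏ i, pt f (x i) (y i) with hI
  have hEprod : E = (∏ i : {i // i ∈ S}, pt f (x i) (y i)) *
      ∏ i : {i // i ∉ S}, ∏ j, pt f (θ i j) (- η i j) := by
    rw [hE, Fintype.prod_sum_type, Fintype.prod_sigma]
    rfl
  have hIprod : I = (∏ i : {i // i ∈ S}, pt f (x i) (y i)) *
      ∏ i : {i // i ∉ S}, pt f (x i) (y i) := by
    rw [hI, ← Fintype.prod_subtype_mul_prod_subtype (fun i => i ∈ S)]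
    refine congrArg₂ _ (Finset.prod_congr ?_ fun _ _ => rfl) (Finset.prod_congr ?_ fun _ _ => rfl) <;>
      ext i <;> simp
  -- the points near Weierstrass points
  have hpoint : ∀ i : {i // i ∉ S},
      Eqv (pt f (x i) (y i)) (pt f (e i) 0 * ∏ j, pt f (θ i j) (- η i j)) := by
    intro i
    apply line_eqv (pt_mul_self hP h2 hsq (he i)) (Q := ∏ j, pt f (θ i j) (η i j))
    · rw [← Finset.prod_mul_distrib]
      have := Eqv.prod Finset.univ (fun j => pt f (θ i j) (η i j) * pt f (θ i j) (- η i j))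
        (fun _ => (1 : Ideal (HR k f))) (fun j _ => pt_mul_neg hP h2 hsq (hηf i j))
      rwa [Finset.prod_const_one] at this
    · apply eqv_of (hpr i)
      exact mul_ne_zero (mul_ne_zero (pt_ne_zero _ _) (pt_ne_zero _ _))
        (Finset.prod_ne_zero_iff.2 fun j _ => pt_ne_zero _ _)
  have hIm : Eqv I (m * E) := by
    have h1 := Eqv.prod Finset.univ (fun i : {i // i ∉ S} => pt f (x i) (y i))
      (fun i => pt f (e i) 0 * ∏ j, pt f (θ i j) (- η i j)) (fun i _ => hpoint i)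
    rw [Finset.prod_mul_distrib] at h1
    have h3 := (Eqv.refl (∏ i : {i // i ∈ S}, pt f (x i) (y i))).mul h1
    rw [← hIprod, mul_left_comm, ← hEprod] at h3
    exact h3
  have hmm : Eqv (m * m) 1 := by
    rw [hm, ← Finset.prod_mul_distrib]
    have := Eqv.prod Finset.univ (fun i => pt f (e i) 0 * pt f (e i) 0)
      (fun _ => (1 : Ideal (HR k f))) (fun i _ => pt_mul_self hP h2 hsq (he i))
    rwa [Finset.prod_const_one] at this
  have hmN : Eqv (m ^ (2 * N)) 1 := by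
    rw [pow_mul, pow_two]
    have := hmm.pow N
    rwa [one_pow] at this
  have hI0 : I ≠ 0 := Finset.prod_ne_zero_iff.2 fun i _ => pt_ne_zero _ _
  have hIN : Eqv (I ^ (2 * N)) 1 := eqv_of hprin (pow_ne_zero _ hI0)
  have hEN : Eqv (E ^ (2 * N)) 1 := by
    have h1 := hIm.pow (2 * N)
    rw [mul_pow] at h1
    exact ((mul_one_left hmN).symm.trans h1.symm).trans hIN
  obtain ⟨n, x', W, hx', hdvd, hcop, hred⟩ := hR k f J X' Y' h2 hsq hYne hYf
  have hU0 : (∏ j, (X - C (x' j)) : k[X]) ≠ 0 :=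
    Finset.prod_ne_zero_iff.2 fun j _ => X_sub_C_ne_zero _
  have hIIN : (II f (∏ j, (X - C (x' j))) W ^ (2 * N)).IsPrincipal :=
    ((hred.symm.pow (2 * N)).trans hEN).isPrincipal
  have hII : (II f (∏ j, (X - C (x' j))) W).IsPrincipal := by
    apply hNT n x' _ W (2 * N) (by omega) hdvd hcop hIIN
    intro j
    obtain ⟨i, hi⟩ := hx' j
    rw [hi]
    exact hlarge i
  have hE1 : Eqv E 1 := hred.trans (eqv_of hII (II_ne_zero hU0))
  have hIm' : Eqv I m := hIm.trans (mul_one_right hE1)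
  obtain ⟨E0, hE0, hmE0⟩ := reduce hP h2 hsq e he Finset.univ
  refine ⟨E0, hE0, ?_⟩
  have : Eqv (I * ∏ a ∈ E0, pt f a 0) 1 := (hIm'.mul hmE0.symm).trans hmm
  exact this.isPrincipal

end Pool.Agent.H13.EV.ODDm
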