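import Pool.Agent.H13.EV.FIN
import Pool.Agent.H13.HP.Final
import Pool.Agent.H62.HE.Final
import Pool.Agent.H2.EV.MUL
import Pool.Agent.H2.EV.RED
import Pool.Agent.H20.EV.IDL
import Pool.Agent.H20.EV.SQS
import Pool.Agent.H34.EV.MOB
import Pool.Agent.H34.EV.NEAR
import Pool.Agent.H34.EV.NORM
import Pool.Agent.H13.EV.ODD
import Pool.Agent.H48.EV.PHI
import Pool.Agent.H54.EV.BAL
import Pool.Agent.H54.EV.GEN
import Pool.Agent.H69.EV.LINE
import Pool.Agent.H74.EV.PT
import Pool.Agent.H85.EV.FAC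
import Pool.Agent.H85.EV.MOV

/-!
# Assembly: all hyperelliptic curves, every characteristic except two
-/

open Polynomial
open scoped TensorProduct

namespace Pool.Agent.H13.EV

open Pool.Agent.H62.HE Pool.Agent.H62.HE.FINm Pool.Agent.H13.HP

universe u

section Transport

variable {K : Type u} [Field K]

lemma eval_y (f : K[X]) :
    (X ^ 2 - C f : K[X][X]).eval₂ (algebraMap K[X] (HR K f)) (⟨0, 1⟩ : HR K f) = 0 := by
  rw [eval₂_sub, eval₂_pow, eval₂_X, eval₂_C, sub_eq_zero, pow_two]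
  apply QuadraticAlgebra.ext
  · rw [QuadraticAlgebra.re_mul]
    change (0 : K[X]) * 0 + f * 1 * 1 = f
    ring
  · simp [QuadraticAlgebra.im_mul]

/-- the isomorphism of rings -/
noncomputable def fwd' (f : K[X]) : AdjoinRoot (X ^ 2 - C f : K[X][X]) →+* HR K f :=
  AdjoinRoot.lift (algebraMap K[X] (HR K f)) ⟨0, 1⟩ (eval_y f)

lemma fwd'_bijective (f : K[X]) : Function.Bijective (fwd' f) := by
  have hmon : (X ^ 2 - C f : K[X][X]).Monic := monic_X_pow_sub_C f two_ne_zero
  have hrep : ∀ z : AdjoinRoot (X ^ 2 - C f : K[X][X]), ∃ a b : K[X],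
      z = AdjoinRoot.of _ a + AdjoinRoot.of _ b * AdjoinRoot.root _ := by
    intro z
    obtain ⟨p, rfl⟩ := AdjoinRoot.mk_surjective z
    have h1 := modByMonic_add_div p (X ^ 2 - C f : K[X][X])
    have hdeg : (p %ₘ (X ^ 2 - C f)).natDegree < 2 := by
      have h2 := natDegree_modByMonic_lt p hmon (by
        intro h
        have := congrArg natDegree h
        rw [natDegree_X_pow_sub_C, natDegree_one] at this
        exact two_ne_zero this)
      rwa [natDegree_X_pow_sub_C] at h2
    refine ⟨(p %ₘ (X ^ 2 - C f)).coeff 0, (p %ₘ (X ^ 2 - C f)).coeff 1, ?_⟩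
    have h3 : p %ₘ (X ^ 2 - C f) = C ((p %ₘ (X ^ 2 - C f)).coeff 0) +
        C ((p %ₘ (X ^ 2 - C f)).coeff 1) * X := by
      conv_lhs => rw [as_sum_range' (p %ₘ (X ^ 2 - C f)) 2 hdeg]
      simp [Finset.sum_range_succ, ← C_mul_X_pow_eq_monomial]
    conv_lhs => rw [← h1, h3]
    rw [map_add, map_mul, AdjoinRoot.mk_self, zero_mul, add_zero, map_add, map_mul]
    rfl
  have halg : ∀ p : K[X], algebraMap K[X] (HR K f) p = ⟨p, 0⟩ := fun p => rfl
  constructor
  · rw [injective_iff_map_eq_zero]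
    intro z hz
    obtain ⟨a, b, rfl⟩ := hrep z
    rw [map_add, map_mul] at hz
    simp only [fwd', AdjoinRoot.lift_of, AdjoinRoot.lift_root] at hz
    rw [halg, halg] at hz
    have h1 := congrArg QuadraticAlgebra.re hz
    have h2 := congrArg QuadraticAlgebra.im hz
    simp at h1 h2
    rw [h1, h2]
    simp
  · intro z
    refine ⟨AdjoinRoot.of _ z.re + AdjoinRoot.of _ z.im * AdjoinRoot.root _, ?_⟩
    rw [map_add, map_mul]
    simp only [fwd', AdjoinRoot.lift_of, AdjoinRoot.lift_root]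
    rw [halg, halg]
    apply QuadraticAlgebra.ext
    · simp
    · simp

lemma finDim_pic {f : K[X]} [IsDomain (HR K f)]
    (h : FiniteDimensional ℚ (ℚ ⊗[ℤ] Additive (CommRing.Pic (AdjoinRoot (X ^ 2 - C f))))) :
    FiniteDimensional ℚ (ℚ ⊗[ℤ] Additive (ClassGroup (HR K f))) := by
  have e1 : CommRing.Pic (AdjoinRoot (X ^ 2 - C f)) ≃* CommRing.Pic (HR K f) := by
    let φ := RingEquiv.ofBijective (fwd' f) (fwd'_bijective f)
    refine
      { toFun := CommRing.Pic.mapRingHom φ.toRingHom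
        invFun := CommRing.Pic.mapRingHom φ.symm.toRingHom
        left_inv := ?_
        right_inv := ?_
        map_mul' := fun _ _ => map_mul _ _ _ }
    · intro x
      rw [CommRing.Pic.mapRingHom_mapRingHom]
      have : φ.symm.toRingHom.comp φ.toRingHom = RingHom.id _ := by ext <;> simp
      rw [this, CommRing.Pic.mapRingHom_id_apply]
    · intro x
      rw [CommRing.Pic.mapRingHom_mapRingHom]
      have : φ.toRingHom.comp φ.symm.toRingHom = RingHom.id _ := by
        apply RingHom.ext; intro x; simp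
      rw [this, CommRing.Pic.mapRingHom_id_apply]
  exact finDim_iff (e1.trans (ClassGroup.equivPic _).symm) h

end Transport

/-- even degree, for a field `F` with a good element `t` -/
theorem even_main (F : Type u) [Field F] (h2 : (2 : F) ≠ 0) (t : F)
    (htinf : Function.Injective (fun n : ℕ => t ^ n)) (hSQ : SQok t) (hVN : VNok t) (e : ℕ)
    (σ : Fin e → (SeparableClosure F ≃ₐ[F] SeparableClosure F)) (f : (KK F σ)[X])
    (hs : f.Separable) (g : ℕ) (hg : 1 ≤ g) (hfd : f.natDegree = 2 * g + 2) :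
    ¬ FiniteDimensional ℚ (ℚ ⊗[ℤ] Additive (CommRing.Pic (AdjoinRoot (X ^ 2 - C f)))) := by
  classical
  intro hfin
  have hD : IsDomain (HR (KK F σ) f) := isDomain_sq hs.squarefree (by omega)
  set Ωs := SeparableClosure F with hΩs
  set Ω := AlgebraicClosure Ωs with hΩ
  set a : KK F σ →+* Ωs := algebraMap (KK F σ) Ωs with ha
  set j : Ωs →+* Ω := algebraMap Ωs Ω with hj
  set i0 : F →+* Ω := j.comp (algebraMap F Ωs) with hi0
  have h2Ω : (2 : Ω) ≠ 0 := by
    intro h
    apply h2
    apply i0.injective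
    rw [map_ofNat, map_zero]
    exact h
  obtain ⟨V, hV, hNT⟩ := hVN Ω i0
  have hP : Pool.Agent.H13.EV.PtsFor (j.comp a) f g (i0 t) := by
    intro T
    obtain ⟨M, G, i1, i2, i3, hfaith, hTM, ⟨tM, htM, htG⟩, fM, r, α, κ, f2, hfM, hfG, hr, hα, hκ,
      hf2m, hf2s, hf2d, hrefl, hpts⟩ :=
      Pool.Agent.H13.EV.pts Pool.Agent.H33.HP.TAU.tau F h2 t htinf hSQ e σ f g hfd hs T
    refine ⟨M, inferInstance, j.comp M.subtype, G, i1, i2, i3, hfaith, ?_, ⟨tM, ?_, htG⟩,
      fM, r, α, κ, f2, ?_, hfG, hr, hα, hκ, hf2m, hf2s, hf2d, hrefl, ?_⟩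
    · intro s hs
      exact ⟨⟨(s : Ωs), hTM s hs⟩, rfl⟩
    · change j (tM : Ωs) = _
      rw [htM]
      rfl
    · rw [← Polynomial.map_map, hfM, Polynomial.map_map]
    · intro S
      obtain ⟨q, hq⟩ := hpts S
      refine ⟨q, fun s hs hqs hinj => ?_⟩
      obtain ⟨u, w, τ, h1, h2, h3, h4, h5, h6⟩ := hq s hs hqs hinj
      refine ⟨u, w, τ, ?_, h2, h3, fun x => h4 x x.2, h5, h6⟩
      rw [← Polynomial.map_map, h1, Polynomial.map_prod]
      refine Finset.prod_congr rfl fun x _ => ?_
      rw [Polynomial.map_sub, Polynomial.map_X, Polynomial.map_C]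
      rfl
  exact core Pool.Agent.H33.HP.CL.cl Pool.Agent.H48.EV.phi Pool.Agent.H34.EV.mob
    (Pool.Agent.H54.EV.gen Pool.Agent.H20.EV.IDL.idl)
    (Pool.Agent.H54.EV.bal Pool.Agent.H20.EV.SQS.sqs) Pool.Agent.H85.EV.mov
    Pool.Agent.H85.EV.fac (Pool.Agent.H34.EV.norm Pool.Agent.H74.EV.pt)
    (Pool.Agent.H13.EV.ODDm.odd (Pool.Agent.H69.EV.line Pool.Agent.H2.EV.mul)
      (Pool.Agent.H2.EV.red Pool.Agent.H2.EV.mul Pool.Agent.H74.EV.pt) Pool.Agent.H74.EV.pt)
    Pool.Agent.H34.EV.near Pool.Agent.H3.HP.sel (KK F σ) Ω h2Ω (j.comp a) f hs g hg hfd V (i0 t)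
    hV hNT hP (finDim_pic hfin)

/-- **all hyperelliptic curves**, every characteristic except two -/
theorem main (F : Type u) [Field F] (h2 : (2 : F) ≠ 0)
    (hF : ∀ k : Subfield F, Finite k → ¬ Algebra.IsAlgebraic k F) (e : ℕ)
    (σ : Fin e → (SeparableClosure F ≃ₐ[F] SeparableClosure F)) (f : (KK F σ)[X])
    (hs : f.Separable) (h3 : 3 ≤ f.natDegree) :
    ¬ FiniteDimensional ℚ (ℚ ⊗[ℤ] Additive (CommRing.Pic (AdjoinRoot (X ^ 2 - C f)))) := by
  have hPL : Pool.Agent.H62.HE.T_PL.{u} :=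
    Pool.Agent.H91.HE.PL Pool.Agent.H41.HE.ex Pool.Agent.H41.HE.nl
  have hPP : T_PP.{u} := pp Pool.Agent.H19.HP.REL.rel Pool.Agent.H4.HP.DEG.deg
    Pool.Agent.H19.HP.SML.sml
    (Pool.Agent.H59.HP.cart Pool.Agent.H19.HP.IDL.lift_T) Pool.Agent.H4.HP.COF.cof
    Pool.Agent.H69.HP.ADD.add Pool.Agent.H69.HP.ROOT.root Pool.Agent.H41.HE.nl
  obtain ⟨p, hp⟩ := CharP.exists F
  rcases Nat.even_or_odd f.natDegree with hev | hodd
  · obtain ⟨m, hm⟩ := hev
    obtain ⟨g, rfl⟩ : ∃ g, m = g + 1 := ⟨m - 1, by omega⟩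
    have hfd : f.natDegree = 2 * g + 2 := by omega
    have hg : 1 ≤ g := by omega
    rcases CharP.char_is_prime_or_zero F p with hpp | hp0
    · have : Fact p.Prime := ⟨hpp⟩
      have hp2 : p ≠ 2 := by
        rintro rfl
        apply h2
        exact_mod_cast CharP.cast_eq_zero F 2
      let _ : Algebra (ZMod p) F := ZMod.algebra F p
      have hna : ¬ Algebra.IsAlgebraic (ZMod p) F := by
        intro halg
        have hfin : Finite (algebraMap (ZMod p) F).fieldRange :=
          Finite.of_surjective (algebraMap (ZMod p) F).rangeRestrictField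
            (by rintro ⟨x, ⟨y, rfl⟩⟩; exact ⟨y, rfl⟩)
        refine hF _ hfin ⟨fun x => ?_⟩
        obtain ⟨P, hP0, hP⟩ := halg.isAlgebraic x
        refine ⟨P.map (algebraMap (ZMod p) F).rangeRestrictField,
          (Polynomial.map_ne_zero_iff (RingHom.injective _)).2 hP0, ?_⟩
        rw [aeval_def, eval₂_map]
        exact hP
      obtain ⟨t, ht⟩ : ∃ t : F, Transcendental (ZMod p) t := by
        by_contra hcon
        apply hna
        refine ⟨fun x => ?_⟩
        by_contra hx
        exact hcon ⟨x, hx⟩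
      have htinf : Function.Injective (fun n : ℕ => t ^ n) := by
        intro a b hab
        by_contra hne
        apply ht
        refine ⟨X ^ a - X ^ b, ?_, ?_⟩
        · intro h
          have h1 := sub_eq_zero.1 h
          have h3 := congrArg natDegree h1
          rw [natDegree_X_pow, natDegree_X_pow] at h3
          exact hne h3
        · simp only [map_sub, map_pow, aeval_X]
          exact sub_eq_zero.2 hab
      exact even_main F h2 t htinf
        (sqok_p (Pool.Agent.H69.HP.SQ.sq Pool.Agent.H59.HP.sqk) p hp2 F t ht)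
        (vnok_p Pool.Agent.H19.HP.IDL.idl hPP hPL Pool.Agent.H3.HP.val p hp2 F t ht)
        e σ f hs g hg hfd
    · subst hp0
      have hc0 : CharZero F := CharP.charP_to_charZero F
      have htinf : Function.Injective (fun n : ℕ => ((2 : F)⁻¹) ^ n) := by
        intro a b hab
        simp only [inv_pow, inv_inj] at hab
        have h1 : (2 : ℕ) ^ a = 2 ^ b := by exact_mod_cast hab
        exact Nat.pow_right_injective le_rfl h1
      exact even_main F h2 _ htinf (sqok_0 F _) (vnok_0 Pool.Agent.H19.HP.IDL.idl hPL F)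
        e σ f hs g hg hfd
  · rcases CharP.char_is_prime_or_zero F p with hpp | hp0
    · have : Fact p.Prime := ⟨hpp⟩
      have hp2 : p ≠ 2 := by
        rintro rfl
        apply h2
        exact_mod_cast CharP.cast_eq_zero F 2
      let _ : Algebra (ZMod p) F := ZMod.algebra F p
      have hna : ¬ Algebra.IsAlgebraic (ZMod p) F := by
        intro halg
        have hfin : Finite (algebraMap (ZMod p) F).fieldRange :=
          Finite.of_surjective (algebraMap (ZMod p) F).rangeRestrictField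
            (by rintro ⟨x, ⟨y, rfl⟩⟩; exact ⟨y, rfl⟩)
        refine hF _ hfin ⟨fun x => ?_⟩
        obtain ⟨P, hP0, hP⟩ := halg.isAlgebraic x
        refine ⟨P.map (algebraMap (ZMod p) F).rangeRestrictField,
          (Polynomial.map_ne_zero_iff (RingHom.injective _)).2 hP0, ?_⟩
        rw [aeval_def, eval₂_map]
        exact hP
      exact Pool.Agent.H13.HP.main p F hp2 hna e σ f hs hodd h3
    · subst hp0
      have hc0 : CharZero F := CharP.charP_to_charZero F
      exact Pool.Agent.H62.HE.main F e σ f hodd h3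

end Pool.Agent.H13.EV
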