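import Pool.Agent.H13.EV.GOOD
import Pool.Agent.H13.HP.FIN

/-!
# The core argument in even degree
-/

open Polynomial
open scoped TensorProduct

namespace Pool.Agent.H13.EV

open Pool.Agent.H62.HE Pool.Agent.H62.HE.FINm Pool.Agent.H13.HP

universe u

lemma isDomain_sq {k : Type u} [Field k] {f : k[X]} (hs : Squarefree f) (hd : 1 ≤ f.natDegree) :
    IsDomain (HR k f) := by
  have hns : ∀ c : k[X], f ≠ c ^ 2 := by
    rintro c rfl
    have h1 : IsUnit c := hs c (by rw [pow_two])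
    have h2 := natDegree_eq_zero_of_isUnit (h1.pow 2)
    omega
  have hne : ∀ a b : k[X], a ^ 2 = f * b ^ 2 → a = 0 ∧ b = 0 := by
    intro a b h
    by_cases hb : b = 0
    · subst hb
      have : a ^ 2 = 0 := by rw [h]; ring
      exact ⟨by simpa using this, rfl⟩
    · exfalso
      have h1 : b ^ 2 ∣ a ^ 2 := ⟨f, by rw [h]; ring⟩
      rw [UniqueFactorizationMonoid.pow_dvd_pow_iff_dvd two_ne_zero] at h1
      obtain ⟨c, rfl⟩ := h1
      apply hns c
      have h2 : b ^ 2 * f = b ^ 2 * c ^ 2 := by rw [mul_comm, ← h]; ring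
      exact mul_left_cancel₀ (pow_ne_zero 2 hb) h2
  have hnorm : ∀ z : HR k f, QuadraticAlgebra.norm z = z.re ^ 2 - f * z.im ^ 2 := by
    intro z
    rw [QuadraticAlgebra.norm_def]
    ring
  have h0 : ∀ z : HR k f, QuadraticAlgebra.norm z = 0 → z = 0 := by
    intro z hz
    rw [hnorm] at hz
    obtain ⟨h1, h2⟩ := hne _ _ (sub_eq_zero.mp hz)
    exact QuadraticAlgebra.ext h1 h2
  have : NoZeroDivisors (HR k f) := by
    refine ⟨fun {x y} hxy => ?_⟩
    have h1 : QuadraticAlgebra.norm x * QuadraticAlgebra.norm y = 0 := by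
      rw [← map_mul, hxy, QuadraticAlgebra.norm_zero]
    rcases mul_eq_zero.mp h1 with h | h
    · exact Or.inl (h0 x h)
    · exact Or.inr (h0 y h)
  exact NoZeroDivisors.to_isDomain _

lemma reflect_eval {k : Type u} [Field k] (p : k[X]) (N : ℕ) (hp : p.natDegree ≤ N) (θ : k)
    (hθ : θ ≠ 0) : (p.reflect N).eval θ = θ ^ N * p.eval θ⁻¹ := by
  have : Invertible θ⁻¹ := invertibleOfNonzero (inv_ne_zero hθ)
  have h1 := Polynomial.eval₂_reflect_mul_pow (RingHom.id k) θ⁻¹ N p hp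
  rw [invOf_eq_inv, inv_inv] at h1
  simp only [eval₂_id] at h1
  rw [← h1]
  have h2 : θ⁻¹ ^ N * θ ^ N = 1 := by rw [← mul_pow, inv_mul_cancel₀ hθ, one_pow]
  linear_combination (-(eval θ (reflect N p))) * h2

/-- the equation of the odd model -/
lemma eval_model {k : Type u} [Field k] {g : ℕ} {f f2 : k[X]} {α κ : k}
    (hfd : f.natDegree ≤ 2 * g + 2)
    (h : (f.comp (C α + C κ * X)).reflect (2 * g + 2) = C (κ ^ 2) * f2) (θ : k) (hθ : θ ≠ 0) :
    κ ^ 2 * f2.eval θ = θ ^ (2 * g + 2) * f.eval (α + κ / θ) := by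
  have h1 : (f.comp (C α + C κ * X)).natDegree ≤ 2 * g + 2 := by
    refine natDegree_comp_le.trans ?_
    have : (C α + C κ * X : k[X]).natDegree ≤ 1 := by compute_degree
    calc f.natDegree * (C α + C κ * X : k[X]).natDegree ≤ f.natDegree * 1 :=
          Nat.mul_le_mul_left _ this
      _ ≤ 2 * g + 2 := by omega
  have h2 := reflect_eval _ _ h1 θ hθ
  rw [h, eval_mul, eval_C, eval_comp] at h2
  rw [h2]
  congr 2
  simp [div_eq_mul_inv]

/-- the output of the module PTS for a general embedding `φ : K → k` -/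
def PtsFor {K k : Type u} [Field K] [Field k] (φ : K →+* k) (f : K[X]) (g : ℕ) (t : k) : Prop :=
  ∀ T : Finset K, ∃ (M : Type u) (_ : Field M) (j : M →+* k) (G : Type u) (_ : Group G)
    (_ : Fintype G) (_ : MulSemiringAction G M), FaithfulSMul G M ∧
    (∀ s ∈ T, ∃ x : M, j x = φ s) ∧ (∃ tM : M, j tM = t ∧ ∀ g : G, g • tM = tM) ∧
    ∃ (fM : M[X]) (r α κ : M) (f2 : M[X]), fM.map j = f.map φ ∧
      (∀ g : G, fM.map (MulSemiringAction.toRingHom G M g) = fM) ∧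
      r ^ 2 = fM.leadingCoeff ∧ fM.eval α = 0 ∧ κ ≠ 0 ∧ f2.Monic ∧ f2.Separable ∧
      f2.natDegree = 2 * g + 1 ∧
      (fM.comp (C α + C κ * X)).reflect (2 * g + 2) = C (κ ^ 2) * f2 ∧
      ∀ S : Finset M, ∃ q : M, ∀ s ∈ S, q + s ≠ 0 →
        Function.Injective (fun g : G => g • (α + κ / (q + s))) →
        ∃ (u w : K[X]) (τ : k ≃+* k),
          u.map φ = ∏ g : G, (X - C (j (g • (α + κ / (q + s))))) ∧
          u ∣ w ^ 2 - f ∧ IsCoprime u w ∧ (∀ x : M, τ (j x) = j x) ∧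
          (∀ i, τ (φ (u.coeff i)) = φ (u.coeff i)) ∧ (∀ i, τ (φ (w.coeff i)) = - φ (w.coeff i))

lemma NTok.mono {k M : Type u} [Field k] [Field M] {φ : M →+* k} {Γ₀ : Type u}
    [LinearOrderedCommGroupWithZero Γ₀] {v : Valuation k Γ₀} {f : k[X]} {β β' : M}
    (h : NTok φ v f β) (hβ : v (φ β) ≤ v (φ β')) : NTok φ v f β' := by
  intro m x hx
  exact h m x fun i => hβ.trans_lt (hx i)

/-- finitely many factorizations -/
lemma exists_phi (hPHI : Pool.Agent.H13.EV.T_PHI.{u}) (k : Type u) [Field k] [IsAlgClosed k]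
    (ι : Type u) [Fintype ι] [Nonempty ι] (g : ℕ) (hg : 1 ≤ g) (f : k[X]) (hf0 : f ≠ 0)
    (hfd : f.natDegree = 2 * g + 1) :
    ∃ P : MvPolynomial ι k, P ≠ 0 ∧ ∀ x : ι → k, ∀ (E : Finset k) (f2 a b : k[X]) (c : k),
      (∀ e ∈ E, f.eval e = 0) → f = (∏ e ∈ E, (X - C e)) * f2 → c ≠ 0 →
      (∏ e ∈ E, (X - C e)) * a ^ 2 - f2 * b ^ 2 = C c * ∏ i, (X - C (x i)) →
      MvPolynomial.eval x P = 0 := by
  classical
  have key : ∀ E : Finset k, ∃ P : MvPolynomial ι k, P ≠ 0 ∧ ∀ x : ι → k,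
      ∀ (f2 a b : k[X]) (c : k), f = (∏ e ∈ E, (X - C e)) * f2 → c ≠ 0 →
      (∏ e ∈ E, (X - C e)) * a ^ 2 - f2 * b ^ 2 = C c * ∏ i, (X - C (x i)) →
      MvPolynomial.eval x P = 0 := by
    intro E
    have hE0 : (∏ e ∈ E, (X - C e) : k[X]) ≠ 0 :=
      (monic_prod_of_monic _ _ fun e _ => monic_X_sub_C e).ne_zero
    by_cases hex : ∃ f2 : k[X], f = (∏ e ∈ E, (X - C e)) * f2
    · obtain ⟨f2, hf2⟩ := hex
      have hf20 : f2 ≠ 0 := by
        rintro rfl
        rw [mul_zero] at hf2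
        exact hf0 hf2
      obtain ⟨P, hP0, hP⟩ := hPHI k ι g _ f2 hg hE0 hf20 (by
        rw [← natDegree_mul hE0 hf20, ← hf2, hfd])
      refine ⟨P, hP0, ?_⟩
      intro x f2' a b c hf2' hc h
      have : f2' = f2 := mul_left_cancel₀ hE0 (hf2'.symm.trans hf2)
      rw [this] at h
      exact hP x ⟨a, b, c, hc, h⟩
    · refine ⟨1, one_ne_zero, ?_⟩
      intro x f2' a b c hf2' hc h
      exact absurd ⟨f2', hf2'⟩ hex
  choose P hP0 hP using key
  refine ⟨∏ E ∈ f.roots.toFinset.powerset, P E, Finset.prod_ne_zero_iff.2 fun E _ => hP0 E, ?_⟩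
  intro x E f2 a b c hE hf2 hc h
  rw [map_prod]
  refine Finset.prod_eq_zero (i := E) ?_ (hP E x f2 a b c hf2 hc h)
  rw [Finset.mem_powerset]
  intro e he
  rw [Multiset.mem_toFinset, mem_roots hf0, IsRoot.def]
  exact hE e he

end Pool.Agent.H13.EV
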