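import Pool.Agent.H13.EV.EQ

/-!
# Larsen's question for hyperelliptic Jacobians, even degree (MP_6b5a9a_nt): targets

Every `T_xxx : Prop` is to be proved as a theorem in its own file.
`HR k f` is the ring `k[x][y] / (y² - f)`, elements `⟨a, b⟩ = a + b y`; `II f u w` is the ideal
`(u, y - w)`, `pt f x y` the ideal of the point `(x, y)` and `Eqv` the equivalence of ideals.
-/

open Polynomial

namespace Pool.Agent.H13.EV

open Pool.Agent.H62.HE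

universe u

/-! ## polynomials in several variables -/

/-- PHI: divisors satisfying an equation are special. -/
def T_PHI : Prop := ∀ (k : Type u) [Field k] [IsAlgClosed k] (ι : Type u) [Fintype ι] [Nonempty ι]
  (g : ℕ) (f1 f2 : k[X]), 1 ≤ g → f1 ≠ 0 → f2 ≠ 0 → f1.natDegree + f2.natDegree = 2 * g + 1 →
  ∃ P : MvPolynomial ι k, P ≠ 0 ∧ ∀ x : ι → k,
    (∃ (a b : k[X]) (c : k), c ≠ 0 ∧ f1 * a ^ 2 - f2 * b ^ 2 = C c * ∏ i, (X - C (x i))) →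
    MvPolynomial.eval x P = 0

/-- MOB: substitution of Möbius transformations. -/
def T_MOB : Prop := ∀ (k : Type u) [Field k] [Infinite k] (ι : Type u) [Fintype ι]
  (A B C' D : ι → k), (∀ i, A i * D i - B i * C' i ≠ 0) → ∀ P : MvPolynomial ι k, P ≠ 0 →
  ∃ Q : MvPolynomial ι k, Q ≠ 0 ∧ ∀ z : ι → k, (∀ i, C' i * z i + D i ≠ 0) →
    MvPolynomial.eval z Q ≠ 0 →
    MvPolynomial.eval (fun i => (A i * z i + B i) / (C' i * z i + D i)) P ≠ 0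

/-! ## behaviour at infinity -/

/-- IDL: from ideals to polynomials, for a given generator. -/
def T_IDL : Prop := ∀ (k : Type u) [Field k] (f U w a b : k[X]) (N : ℕ), (2 : k) ≠ 0 → U ≠ 0 →
  1 ≤ N → U ∣ w ^ 2 - f → IsCoprime U w → II f U w ^ N = Ideal.span {(⟨a, b⟩ : HR k f)} →
  ∃ (W : k[X]) (c : k), c ≠ 0 ∧ U ∣ W - w ∧ U ^ N ∣ W ^ 2 - f ∧ U ^ N ∣ a + b * W ∧
    a ^ 2 - f * b ^ 2 = C c * U ^ N

/-- GEN: a generator of `(u, y - w) ^ (2 N)` which is balanced at infinity. -/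
def T_GEN : Prop := ∀ (k : Type u) [Field k] (f u w : k[X]) [IsDomain (HR k f)] (N : ℕ)
  (τ : k ≃+* k), (2 : k) ≠ 0 → u ≠ 0 → 1 ≤ N → u ∣ w ^ 2 - f → IsCoprime u w →
  (∀ i, τ (f.coeff i) = f.coeff i) → (∀ i, τ (u.coeff i) = u.coeff i) →
  (∀ i, τ (w.coeff i) = - w.coeff i) → (II f u w ^ N).IsPrincipal →
  ∃ (a0 b0 a b : k[X]) (c c' : k), c ≠ 0 ∧ c' ≠ 0 ∧ (a0 ≠ 0 ∨ b0 ≠ 0) ∧
    II f u w ^ (2 * N) = Ideal.span {(⟨a, b⟩ : HR k f)} ∧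
    a ^ 2 - f * b ^ 2 = C c' * u ^ (2 * N) ∧ IsCoprime a b ∧ u ∣ a + b * w ∧
    (⟨a, b⟩ : HR k f) * ⟨a0.map (τ : k →+* k), b0.map (τ : k →+* k)⟩ =
      ⟨C c * u ^ N, 0⟩ * ⟨a0, b0⟩

/-- SQS: square roots of power series. -/
def T_SQS : Prop := ∀ (k : Type u) [Field k] (F : PowerSeries k) (r : k), (2 : k) ≠ 0 → r ≠ 0 →
  r ^ 2 = PowerSeries.constantCoeff F →
  ∃ S : PowerSeries k, S ^ 2 = F ∧ PowerSeries.constantCoeff S = r

/-- BAL: degrees of a balanced element. -/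
def T_BAL : Prop := ∀ (k : Type u) [Field k] (g n N : ℕ) (f u : k[X]) (r c : k) (τ : k ≃+* k)
  (a0 b0 a b : k[X]), (2 : k) ≠ 0 → Squarefree f → f.natDegree = 2 * g + 2 →
  r ^ 2 = f.leadingCoeff → τ r = r → (∀ i, τ (f.coeff i) = f.coeff i) → c ≠ 0 →
  (a0 ≠ 0 ∨ b0 ≠ 0) → u.natDegree = n → u ≠ 0 →
  (⟨a, b⟩ : HR k f) * ⟨a0.map (τ : k →+* k), b0.map (τ : k →+* k)⟩ =
      ⟨C c * u ^ N, 0⟩ * ⟨a0, b0⟩ →
  a.natDegree ≤ N * n ∧ (b = 0 ∨ b.natDegree + g + 1 ≤ N * n)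

/-- MOV: from even to odd degree. -/
def T_MOV : Prop := ∀ (k : Type u) [Field k] [IsAlgClosed k] (g m M' : ℕ) (f f2 : k[X]) (α κ : k)
  (ι : Type u) [Fintype ι] (x : ι → k) (a b : k[X]) (c : k),
  κ ≠ 0 → f.natDegree ≤ 2 * g + 2 →
  (f.comp (C α + C κ * X)).reflect (2 * g + 2) = C (κ ^ 2) * f2 →
  (∀ i, x i ≠ α) → c ≠ 0 → a ^ 2 - f * b ^ 2 = C c * (∏ i, (X - C (x i))) ^ M' →
  2 * m = M' * Fintype.card ι → a.natDegree ≤ m → (b = 0 ∨ b.natDegree + g + 1 ≤ m) →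
  IsCoprime a b →
  ∃ (a1 b1 : k[X]) (c1 : k), c1 ≠ 0 ∧
    a1 ^ 2 - f2 * b1 ^ 2 = C c1 * (∏ i, (X - C (κ / (x i - α)))) ^ M' ∧ IsCoprime a1 b1 ∧
    ∀ (i : ι) (y : k), a.eval (x i) + b.eval (x i) * y = 0 →
      a1.eval (κ / (x i - α)) +
        b1.eval (κ / (x i - α)) * (y * (κ / (x i - α)) ^ (g + 1) / κ) = 0

/-! ## ideals of points -/

/-- FAC: factorization of a principal ideal. -/
def T_FAC : Prop := ∀ (k : Type u) [Field k] (f : k[X]) [IsDomain (HR k f)] (ι : Type u)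
  [Fintype ι] (x y : ι → k) (M' : ℕ) (a b : k[X]) (c : k), (2 : k) ≠ 0 → Function.Injective x →
  (∀ i, y i ≠ 0) → (∀ i, y i ^ 2 = f.eval (x i)) → c ≠ 0 →
  a ^ 2 - f * b ^ 2 = C c * (∏ i, (X - C (x i))) ^ M' → IsCoprime a b →
  (∀ i, a.eval (x i) + b.eval (x i) * y i = 0) →
  Ideal.span {(⟨a, b⟩ : HR k f)} = ∏ i, pt f (x i) (y i) ^ M'

/-- MUL: multiplicativity of `(u, y - w)` in `u`. -/
def T_MUL : Prop := ∀ (k : Type u) [Field k] (f U V W : k[X]), (2 : k) ≠ 0 → Squarefree f →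
  U * V ∣ W ^ 2 - f → II f (U * V) W = II f U W * II f V W

/-- PT: opposite points. -/
def T_PT : Prop := ∀ (k : Type u) [Field k] (f : k[X]) (x y : k), (2 : k) ≠ 0 → Squarefree f →
  y ^ 2 = f.eval x → pt f x y * pt f x (-y) = Ideal.span {(⟨X - C x, 0⟩ : HR k f)}

/-- LINE: the line through a point and a Weierstrass point which are close to each other. -/
def T_LINE : Prop := ∀ (k : Type u) [Field k] [IsAlgClosed k] (Γ₀ : Type u)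
  [LinearOrderedCommGroupWithZero Γ₀] (v : Valuation k Γ₀) (g : ℕ) (f : k[X])
  (e x1 y1 B β : k), (2 : k) ≠ 0 → 1 ≤ g → f.Monic → Squarefree f → f.natDegree = 2 * g + 1 →
  (∀ i, v (f.coeff i) ≤ v B) → 1 ≤ v β → v e ≤ v β → v x1 ≤ v β → f.eval e = 0 → y1 ≠ 0 →
  y1 ^ 2 = f.eval x1 → v B * v β ^ (2 * g) < v (y1 / (x1 - e)) ^ 2 →
  ∃ θ η : Fin (2 * g - 1) → k, (∀ j, v β < v (θ j)) ∧ (∀ j, η j ≠ 0) ∧
    (∀ j, η j ^ 2 = f.eval (θ j)) ∧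
    (pt f e 0 * pt f x1 y1 * ∏ j, pt f (θ j) (η j)).IsPrincipal

/-- RED: a product of points is equivalent to a reduced ideal. -/
def T_RED : Prop := ∀ (k : Type u) [Field k] (f : k[X]) [IsDomain (HR k f)] (ι : Type u)
  [Fintype ι] (x y : ι → k), (2 : k) ≠ 0 → Squarefree f → (∀ i, y i ≠ 0) →
  (∀ i, y i ^ 2 = f.eval (x i)) →
  ∃ (m : ℕ) (x' : Fin m → k) (W : k[X]), (∀ j, ∃ i, x' j = x i) ∧
    (∏ j, (X - C (x' j))) ∣ W ^ 2 - f ∧ IsCoprime (∏ j, (X - C (x' j))) W ∧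
    Eqv (∏ i, pt f (x i) (y i)) (II f (∏ j, (X - C (x' j))) W)

/-- NORM: from a principal product of points to an equation. -/
def T_NORM : Prop := ∀ (k : Type u) [Field k] (f : k[X]) [IsDomain (HR k f)] (ι : Type u)
  [Fintype ι] (x y : ι → k) (E : Finset k), (2 : k) ≠ 0 → Squarefree f →
  (∀ i, y i ^ 2 = f.eval (x i)) → (∀ e ∈ E, f.eval e = 0) →
  ((∏ i, pt f (x i) (y i)) * ∏ e ∈ E, pt f e 0).IsPrincipal →
  ∃ (f2 a b : k[X]) (c : k), f = (∏ e ∈ E, (X - C e)) * f2 ∧ c ≠ 0 ∧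
    (∏ e ∈ E, (X - C e)) * a ^ 2 - f2 * b ^ 2 = C c * ∏ i, (X - C (x i))

/-- no torsion among the points with large coordinates -/
def NTok {k M : Type u} [Field k] [Field M] (φ : M →+* k) {Γ₀ : Type u}
    [LinearOrderedCommGroupWithZero Γ₀] (v : Valuation k Γ₀) (f : k[X]) (β : M) : Prop :=
  ∀ (m : ℕ) (x : Fin m → k), (∀ i, v (φ β) < v (x i)) → ∀ (w : k[X]) (N : ℕ), 1 ≤ N →
    (∏ i, (X - C (x i))) ∣ w ^ 2 - f → IsCoprime (∏ i, (X - C (x i))) w →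
    (II f (∏ i, (X - C (x i))) w ^ N).IsPrincipal → (II f (∏ i, (X - C (x i))) w).IsPrincipal

/-- ODD: the argument in the model of odd degree. -/
def T_ODD : Prop := ∀ (k M : Type u) [Field k] [IsAlgClosed k] [Field M] (φ : M →+* k)
  (Γ₀ : Type u) [LinearOrderedCommGroupWithZero Γ₀] (v : Valuation k Γ₀) (g : ℕ) (f : k[X])
  [IsDomain (HR k f)] (B : k) (β : M) (ι : Type u) [Fintype ι] (x y : ι → k) (S : Finset ι)
  (N : ℕ), (2 : k) ≠ 0 → 1 ≤ g → f.Monic → Squarefree f → f.natDegree = 2 * g + 1 →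
  (∀ i, v (f.coeff i) ≤ v B) → 1 ≤ v (φ β) → NTok φ v f β → 1 ≤ N → (∀ i, y i ≠ 0) →
  (∀ i, y i ^ 2 = f.eval (x i)) → (∀ i ∈ S, v (φ β) < v (x i)) →
  (∀ i ∉ S, ∃ e : k, f.eval e = 0 ∧ v e ≤ v (φ β) ∧ v (x i) ≤ v (φ β) ∧
    v B * v (φ β) ^ (2 * g) < v (y i / (x i - e)) ^ 2) →
  ((∏ i, pt f (x i) (y i)) ^ (2 * N)).IsPrincipal →
  ∃ E : Finset k, (∀ e ∈ E, f.eval e = 0) ∧
    ((∏ i, pt f (x i) (y i)) * ∏ e ∈ E, pt f e 0).IsPrincipal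

/-- NEAR: estimates for a point near a Weierstrass point. -/
def T_NEAR : Prop := ∀ (k M : Type u) [Field k] [Field M] (φ : M →+* k) (Γ₀ : Type u)
  [LinearOrderedCommGroupWithZero Γ₀] (v : Valuation k Γ₀) (f : M[X]) (κ δ κ' R : M),
  f.Separable → κ ≠ 0 → δ ≠ 0 → κ' ≠ 0 → R ≠ 0 → f.eval (κ / δ) = 0 →
  ∃ β : M, ∀ z : k, v (φ β) < v z →
    φ δ + φ κ' / z ≠ 0 ∧ v (φ κ / (φ δ + φ κ' / z)) = v (φ (κ / δ)) ∧
    v (φ R) < v ((f.map φ).eval (φ κ / (φ δ + φ κ' / z)) /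
      (φ κ / (φ δ + φ κ' / z) - φ (κ / δ)) ^ 2)

end Pool.Agent.H13.EV
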