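import Pool.Agent.H62.HE.Defs

/-!
# Equivalence of ideals
-/

open Polynomial

namespace Pool.Agent.H13.EV

open Pool.Agent.H62.HE

universe u

/-- equivalence of ideals: `(x) I = (y) J` with `x, y ≠ 0` -/
def Eqv {R : Type u} [CommRing R] (I J : Ideal R) : Prop :=
  ∃ x y : R, x ≠ 0 ∧ y ≠ 0 ∧ Ideal.span {x} * I = Ideal.span {y} * J

/-- the ideal of the point `(x, y)` -/
noncomputable def pt {k : Type u} [Field k] (f : k[X]) (x y : k) : Ideal (HR k f) :=
  II f (X - C x) (C y)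

section

variable {R : Type u} [CommRing R] [IsDomain R] {I J K I' J' : Ideal R}

omit [IsDomain R] in
lemma Eqv.refl [Nontrivial R] (I : Ideal R) : Eqv I I := ⟨1, 1, one_ne_zero, one_ne_zero, rfl⟩

omit [IsDomain R] in
lemma Eqv.symm (h : Eqv I J) : Eqv J I := by
  obtain ⟨x, y, hx, hy, h⟩ := h
  exact ⟨y, x, hy, hx, h.symm⟩

lemma Eqv.trans (h : Eqv I J) (h' : Eqv J K) : Eqv I K := by
  obtain ⟨x, y, hx, hy, h⟩ := h
  obtain ⟨x', y', hx', hy', h'⟩ := h'
  refine ⟨x' * x, y * y', mul_ne_zero hx' hx, mul_ne_zero hy hy', ?_⟩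
  rw [← Ideal.span_singleton_mul_span_singleton, mul_assoc, h, ← mul_assoc,
    mul_comm (Ideal.span {x'}), mul_assoc, h', ← mul_assoc, Ideal.span_singleton_mul_span_singleton]

lemma Eqv.mul (h : Eqv I J) (h' : Eqv I' J') : Eqv (I * I') (J * J') := by
  obtain ⟨x, y, hx, hy, h⟩ := h
  obtain ⟨x', y', hx', hy', h'⟩ := h'
  refine ⟨x * x', y * y', mul_ne_zero hx hx', mul_ne_zero hy hy', ?_⟩
  rw [← Ideal.span_singleton_mul_span_singleton, ← Ideal.span_singleton_mul_span_singleton,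
    mul_mul_mul_comm, h, h', mul_mul_mul_comm]

lemma Eqv.pow (h : Eqv I J) (n : ℕ) : Eqv (I ^ n) (J ^ n) := by
  induction n with
  | zero => rw [pow_zero, pow_zero]; exact Eqv.refl _
  | succ n ih => rw [pow_succ, pow_succ]; exact ih.mul h

lemma Eqv.prod {ι : Type*} (s : Finset ι) (I J : ι → Ideal R) (h : ∀ i ∈ s, Eqv (I i) (J i)) :
    Eqv (∏ i ∈ s, I i) (∏ i ∈ s, J i) := by
  classical
  induction s using Finset.induction_on with
  | empty => rw [Finset.prod_empty, Finset.prod_empty]; exact Eqv.refl _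
  | insert a s ha ih =>
    rw [Finset.prod_insert ha, Finset.prod_insert ha]
    exact (h a (Finset.mem_insert_self _ _)).mul
      (ih fun i hi => h i (Finset.mem_insert_of_mem hi))

/-- a principal ideal generated by a non-zero element is trivial -/
lemma Eqv.of_span {x : R} (hx : x ≠ 0) : Eqv (Ideal.span {x}) 1 :=
  ⟨1, x, one_ne_zero, hx, by rw [Ideal.span_singleton_one, Ideal.one_eq_top, Ideal.top_mul,
    Ideal.mul_top]⟩

lemma Eqv.isPrincipal (h : Eqv I 1) : I.IsPrincipal := by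
  obtain ⟨x, y, hx, hy, h⟩ := h
  rw [mul_one] at h
  have h1 : y ∈ Ideal.span {x} * I := by rw [h]; exact Ideal.mem_span_singleton_self y
  have h2 : y ∈ Ideal.span {x} := (Ideal.mul_le_left : Ideal.span {x} * I ≤ Ideal.span {x}) h1
  obtain ⟨z, rfl⟩ := Ideal.mem_span_singleton.1 h2
  rw [← Ideal.span_singleton_mul_span_singleton, Ideal.span_singleton_mul_right_inj hx] at h
  exact ⟨⟨z, h⟩⟩

omit [IsDomain R] in
lemma Eqv.of_isPrincipal [Nontrivial R] (h : I.IsPrincipal) (h0 : I ≠ ⊥) : Eqv I 1 := by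
  obtain ⟨x, hx⟩ := h
  rw [← Ideal.span] at hx
  have hx0 : x ≠ 0 := by
    rintro rfl
    apply h0
    rw [hx, Ideal.span_singleton_eq_bot]
  refine ⟨1, x, one_ne_zero, hx0, ?_⟩
  rw [hx, Ideal.span_singleton_one, Ideal.top_mul, mul_one]

/-- cancellation of an ideal dividing a principal ideal -/
lemma Eqv.cancel (K' : Ideal R) (h : Eqv (I * K) (J * K)) (hK : Eqv (K * K') 1) : Eqv I J := by
  have h1 : Eqv (I * K * K') (J * K * K') := h.mul (Eqv.refl K')
  rw [mul_assoc, mul_assoc] at h1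
  have h2 : Eqv (I * (K * K')) I := by
    have := (Eqv.refl I).mul hK
    rwa [mul_one] at this
  have h3 : Eqv (J * (K * K')) J := by
    have := (Eqv.refl J).mul hK
    rwa [mul_one] at this
  exact (h2.symm.trans h1).trans h3

end

end Pool.Agent.H13.EV
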