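import Pool.Agent.H13.EV.CORE

/-!
# FIN: assembly in even degree
-/

open Polynomial
open scoped TensorProduct

namespace Pool.Agent.H13.EV

open Pool.Agent.H62.HE Pool.Agent.H62.HE.FINm Pool.Agent.H13.HP

universe u

theorem core (hCL : Pool.Agent.H13.HP.T_CL.{u}) (hPHI : Pool.Agent.H13.EV.T_PHI.{u})
    (hMOB : T_MOB.{u}) (hGEN : T_GEN.{u})
    (hBAL : T_BAL.{u}) (hMOV : T_MOV.{u}) (hFAC : T_FAC.{u}) (hNORM : T_NORM.{u})
    (hODD : T_ODD.{u}) (hNEAR : T_NEAR.{u}) (hSEL : Pool.Agent.H13.HP.T_SEL.{u})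
    (K k : Type u) [Field K] [Field k] [IsAlgClosed k] (h2 : (2 : k) ≠ 0) (φ : K →+* k)
    (f : K[X]) (hs : f.Separable) (g : ℕ) (hg : 1 ≤ g) (hfd : f.natDegree = 2 * g + 2)
    [IsDomain (HR K f)] (V : ValuationSubring k) (t : k) (ht : 1 < V.valuation t)
    (hNT : ∀ (M : Type u) [Field M] (φ : M →+* k) (tM : M), φ tM = t → ∀ (g : ℕ) (f : M[X]),
      1 ≤ g → f.Monic → f.Separable → f.natDegree = 2 * g + 1 →
      ∃ β : M, NTok φ V.valuation (f.map φ) β)
    (hPTS : Pool.Agent.H13.EV.PtsFor φ f g t) :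
    ¬ FiniteDimensional ℚ (ℚ ⊗[ℤ] Additive (ClassGroup (HR K f))) := by
  classical
  intro hfin
  have h2K : (2 : K) ≠ 0 := by
    intro h
    apply h2
    have h1 := congrArg φ h
    rwa [map_ofNat, map_zero] at h1
  have hsq : Squarefree (f.map φ) := (hs.map).squarefree
  have hfd' : (f.map φ).natDegree = 2 * g + 2 := by rw [natDegree_map, hfd]
  have hDk : IsDomain (HR k (f.map φ)) := isDomain_sq hsq (by omega)
  obtain ⟨T, hT⟩ := hCL K k φ f h2K hfin
  obtain ⟨M, _, j, G, _, _, _, hfaith, hTM, ⟨tM, htM, htG⟩, fM, r, α, κ, f2, hfM, hfG, hr, hα, hκ,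
    hf2m, hf2s, hf2d, hrefl, hpts⟩ := hPTS T
  obtain ⟨β0, hβ0⟩ := hNT M j tM htM g f2 hg hf2m hf2s hf2d
  set v := V.valuation with hv
  have hf2d' : (f2.map j).natDegree = 2 * g + 1 := by rw [natDegree_map, hf2d]
  have hf2sq : Squarefree (f2.map j) := (hf2s.map).squarefree
  have hD2 : IsDomain (HR k (f2.map j)) := isDomain_sq hf2sq (by omega)
  have hfMd : fM.natDegree = 2 * g + 2 := by
    rw [← Polynomial.natDegree_map j, hfM, hfd']
  -- the bounds
  obtain ⟨B, hB0, hB1, hB⟩ := exists_max j v ((Finset.range (2 * g + 2)).image f2.coeff)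
  obtain ⟨β1, hβ10, hβ11, hβ1⟩ := exists_max j v
    (insert β0 (Finset.univ.image fun γ : G => κ / (γ • α - α)))
  have hR0 : B * β1 ^ (2 * g) ≠ 0 := mul_ne_zero hB0 (pow_ne_zero _ hβ10)
  have hsmul0 : ∀ (γ : G) (x : M), x ≠ 0 → γ • x ≠ 0 := by
    intro γ x hx h
    exact hx ((smul_eq_zero_iff_eq γ).1 h)
  have hrootM : ∀ γ : G, fM.eval (γ • α) = 0 := by
    intro γ
    have h1 := Polynomial.eval_map_apply (MulSemiringAction.toRingHom G M γ) (p := fM) α
    rw [hfG γ, hα, map_zero] at h1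
    exact h1
  have hroot2 : ∀ γ : G, γ • α - α ≠ 0 → f2.eval (κ / (γ • α - α)) = 0 := by
    intro γ hγ
    have hθ : κ / (γ • α - α) ≠ 0 := div_ne_zero hκ hγ
    have h1 := eval_model (by omega) hrefl _ hθ
    have h3 : α + κ / (κ / (γ • α - α)) = γ • α := by
      rw [div_div_cancel₀ hκ]
      ring
    rw [h3, hrootM γ, mul_zero] at h1
    rcases mul_eq_zero.1 h1 with h | h
    · exact absurd h (pow_ne_zero _ hκ)
    · exact h
  have hnear : ∀ γ : G, ∃ β : M, γ • α - α ≠ 0 → ∀ z : k, v (j β) < v z →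
      j (γ • α - α) + j (γ • κ) / z ≠ 0 ∧
      v (j κ / (j (γ • α - α) + j (γ • κ) / z)) = v (j (κ / (γ • α - α))) ∧
      v (j (B * β1 ^ (2 * g))) < v ((f2.map j).eval (j κ / (j (γ • α - α) + j (γ • κ) / z)) /
        (j κ / (j (γ • α - α) + j (γ • κ) / z) - j (κ / (γ • α - α))) ^ 2) := by
    intro γ
    by_cases hγ : γ • α - α = 0
    · exact ⟨0, fun h => absurd hγ h⟩
    · obtain ⟨β, hβ⟩ := hNEAR k M j V.ValueGroup v f2 κ (γ • α - α) (γ • κ) (B * β1 ^ (2 * g))
        hf2s hκ hγ (hsmul0 γ κ hκ) hR0 (hroot2 γ hγ)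
      exact ⟨β, fun _ => hβ⟩
  choose βγ hβγ using hnear
  obtain ⟨β, hβ0', hβ1', hββ⟩ := exists_max j v
    (insert β1 ((Finset.univ.image βγ) ∪ (Finset.univ.image fun γ : G => β1 * (γ • κ) / κ)))
  have hββ1 : v (j β1) ≤ v (j β) := hββ _ (Finset.mem_insert_self _ _)
  have hββγ : ∀ γ, v (j (βγ γ)) ≤ v (j β) := fun γ => hββ _ (Finset.mem_insert_of_mem
    (Finset.mem_union_left _ (Finset.mem_image_of_mem _ (Finset.mem_univ γ))))
  have hββκ : ∀ γ : G, v (j (β1 * (γ • κ) / κ)) ≤ v (j β) := fun γ => hββ _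
    (Finset.mem_insert_of_mem (Finset.mem_union_right _ (Finset.mem_image_of_mem _
      (Finset.mem_univ γ))))
  -- the polynomials
  obtain ⟨P, hP0, hP⟩ := exists_phi hPHI k G g hg (f2.map j) (hf2m.map j).ne_zero hf2d'
  have hinfk : Infinite k := IsAlgClosed.instInfinite
  obtain ⟨Q1, hQ10, hQ1⟩ := hMOB k G (fun _ => j κ) (fun _ => 0) (fun γ => j (γ • α - α))
    (fun γ => j (γ • κ)) (fun γ => by
      rw [zero_mul, sub_zero]
      exact mul_ne_zero ((map_ne_zero j).2 hκ) ((map_ne_zero j).2 (hsmul0 γ κ hκ))) P hP0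
  set Q2 : MvPolynomial G k := ∏ p ∈ (Finset.univ : Finset (G × G)).filter (fun p => p.1 ≠ p.2),
    ((MvPolynomial.C (j (p.1 • α)) * MvPolynomial.X p.1 + MvPolynomial.C (j (p.1 • κ))) *
        MvPolynomial.X p.2 -
      (MvPolynomial.C (j (p.2 • α)) * MvPolynomial.X p.2 + MvPolynomial.C (j (p.2 • κ))) *
        MvPolynomial.X p.1) with hQ2
  have hQ20 : Q2 ≠ 0 := by
    rw [hQ2, Finset.prod_ne_zero_iff]
    intro p hp h0
    rw [Finset.mem_filter] at hp
    have h1 := congrArg (MvPolynomial.eval (fun a : G => if a = p.2 then (1 : k) else 0)) h0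
    simp only [map_sub, map_mul, map_add, MvPolynomial.eval_C, MvPolynomial.eval_X, map_zero] at h1
    rw [if_neg hp.2, if_pos trivial] at h1
    have h3 : j (p.1 • κ) = 0 := by linear_combination h1
    exact hsmul0 p.1 κ hκ ((map_eq_zero j).1 h3)
  obtain ⟨S, hS⟩ := hSEL M k G j V.ValueGroup v (Q1 * Q2) β tM htG (by rw [htM]; exact ht)
    (mul_ne_zero hQ10 hQ20)
  obtain ⟨q, hq⟩ := hpts S
  obtain ⟨s, hsS, hsP, hsv⟩ := hS q
  rw [map_mul] at hsP
  set z : G → k := fun γ => j (γ • (q + s)) with hz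
  have hvz : ∀ γ, v (j β) < v (z γ) := hsv
  have hz0 : ∀ γ, z γ ≠ 0 := by
    intro γ h
    have := hvz γ
    rw [h, map_zero] at this
    exact not_lt_zero this
  have hqs : q + s ≠ 0 := by
    intro h
    apply hz0 1
    change j ((1 : G) • (q + s)) = 0
    rw [h, smul_zero, map_zero]
  set x : G → k := fun γ => j (γ • (α + κ / (q + s))) with hx
  have hxz : ∀ γ, x γ = j (γ • α) + j (γ • κ) / z γ := by
    intro γ
    change j (γ • (α + κ / (q + s))) = _
    have h1 : γ • (α + κ / (q + s)) = γ • α + (γ • κ) / (γ • (q + s)) := by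
      rw [smul_add, div_eq_mul_inv, smul_mul', smul_inv'', ← div_eq_mul_inv]
    rw [h1, map_add, map_div₀]
  have hinj : Function.Injective (fun γ : G => γ • (α + κ / (q + s))) := by
    intro a b hab
    by_contra hne
    apply right_ne_zero_of_mul hsP
    rw [hQ2, map_prod]
    refine Finset.prod_eq_zero (i := (a, b)) (Finset.mem_filter.mpr ⟨Finset.mem_univ _, hne⟩) ?_
    simp only [map_sub, map_mul, map_add, MvPolynomial.eval_C, MvPolynomial.eval_X]
    have h1 : x a = x b := congrArg j hab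
    rw [hxz, hxz] at h1
    have ha := hz0 a
    have hb := hz0 b
    change (j (a • α) * z a + j (a • κ)) * z b - (j (b • α) * z b + j (b • κ)) * z a = 0
    field_simp at h1
    linear_combination h1
  have hxinj : Function.Injective x := fun a b hab => hinj (j.injective hab)
  obtain ⟨u, w, τ, hu, huw, hcop, hτM, hτu, hτw⟩ := hq s hsS hqs hinj
  have hu' : u.map φ = ∏ γ : G, (X - C (x γ)) := hu
  have hu0 : u ≠ 0 := by
    rintro rfl
    rw [Polynomial.map_zero] at hu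
    exact (Finset.prod_ne_zero_iff.mpr fun g _ => X_sub_C_ne_zero _) hu.symm
  have hτf : ∀ i, τ (φ (f.coeff i)) = φ (f.coeff i) := fun i => by
    have h1 : φ (f.coeff i) = j (fM.coeff i) := by
      rw [← coeff_map, ← hfM, coeff_map]
    rw [h1]
    exact hτM _
  obtain ⟨N, hN, hprin⟩ := hT u w hu0 huw hcop τ
    (fun t ht => by
      obtain ⟨x, hx⟩ := hTM t ht
      rw [← hx]
      exact hτM x) hτf hτu hτw
  have huk0 : u.map φ ≠ 0 := (Polynomial.map_ne_zero_iff φ.injective).2 hu0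
  have hukd : (u.map φ).natDegree = Fintype.card G := by
    rw [hu', natDegree_prod_of_monic _ _ fun e _ => monic_X_sub_C _]
    simp
  have huw' : u.map φ ∣ (w.map φ) ^ 2 - f.map φ := by
    rw [← Polynomial.map_pow, ← Polynomial.map_sub]
    exact Polynomial.map_dvd φ huw
  have hcop' : IsCoprime (u.map φ) (w.map φ) := hcop.map (Polynomial.mapRingHom φ)
  have hτf' : ∀ i, τ ((f.map φ).coeff i) = (f.map φ).coeff i := fun i => by
    rw [coeff_map]; exact hτf i
  obtain ⟨a0, b0, a, b, c, c', hc, hc', hab0, hspan, hnorm, habcop, habw, hrel⟩ :=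
    hGEN k (f.map φ) (u.map φ) (w.map φ) N τ h2 huk0 hN huw' hcop' hτf'
      (fun i => by rw [coeff_map]; exact hτu i) (fun i => by rw [coeff_map]; exact hτw i) hprin
  have hlc : (j r) ^ 2 = (f.map φ).leadingCoeff := by
    rw [← hfM, leadingCoeff_map, ← hr, map_pow]
  obtain ⟨hda, hdb⟩ := hBAL k g (Fintype.card G) N (f.map φ) (u.map φ) (j r) c τ a0 b0 a b h2 hsq
    hfd' hlc (hτM r) hτf' hc hab0 hukd huk0 hrel
  -- the odd model
  have hreflk : ((f.map φ).comp (C (j α) + C (j κ) * X)).reflect (2 * g + 2) =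
      C (j κ ^ 2) * f2.map j := by
    have h1 := congrArg (Polynomial.map j) hrefl
    rw [Polynomial.map_mul, Polynomial.map_C, map_pow, ← reflect_map, Polynomial.map_comp,
      Polynomial.map_add, Polynomial.map_mul, Polynomial.map_C, Polynomial.map_C, Polynomial.map_X,
      hfM] at h1
    exact h1
  have hκk : j κ ≠ 0 := (map_ne_zero j).2 hκ
  have hden : ∀ γ, j (γ • α - α) + j (γ • κ) / z γ ≠ 0 := by
    intro γ
    by_cases hγ : γ • α - α = 0
    · rw [hγ, map_zero, zero_add]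
      exact div_ne_zero ((map_ne_zero j).2 (hsmul0 γ κ hκ)) (hz0 γ)
    · exact (hβγ γ hγ (z γ) ((hββγ γ).trans_lt (hvz γ))).1
  have hxα : ∀ γ, x γ - j α = j (γ • α - α) + j (γ • κ) / z γ := by
    intro γ
    rw [hxz, map_sub]
    ring
  have hxα0 : ∀ γ, x γ ≠ j α := by
    intro γ h
    apply hden γ
    rw [← hxα, h, sub_self]
  rw [hu'] at hnorm
  obtain ⟨a1, b1, c1, hc1, hnorm1, hcop1, hev1⟩ := hMOV k g (N * Fintype.card G) (2 * N)
    (f.map φ) (f2.map j) (j α) (j κ) G x a b c' hκk (by omega) hreflk hxα0 hc' hnorm (by ring)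
    hda hdb habcop
  set X' : G → k := fun γ => j κ / (x γ - j α) with hX'
  set y : G → k := fun γ => (w.map φ).eval (x γ) * (X' γ) ^ (g + 1) / j κ with hy
  have hX'0 : ∀ γ, X' γ ≠ 0 := fun γ => div_ne_zero hκk (sub_ne_zero.2 (hxα0 γ))
  have hX'inj : Function.Injective X' := by
    intro a b hab
    have h1 : j κ / (x a - j α) = j κ / (x b - j α) := hab
    rw [div_eq_div_iff (sub_ne_zero.2 (hxα0 a)) (sub_ne_zero.2 (hxα0 b))] at h1
    have h3 := mul_left_cancel₀ hκk h1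
    exact hxinj (by linear_combination -h3)
  have hdvdX : ∀ γ, (X - C (x γ)) ∣ ∏ γ : G, (X - C (x γ)) := fun γ =>
    Finset.dvd_prod_of_mem _ (Finset.mem_univ γ)
  have hw2 : ∀ γ, ((w.map φ).eval (x γ)) ^ 2 = (f.map φ).eval (x γ) := by
    intro γ
    have h1 : (X - C (x γ)) ∣ (w.map φ) ^ 2 - f.map φ := (hdvdX γ).trans (hu' ▸ huw')
    rw [dvd_iff_isRoot, IsRoot.def, eval_sub, eval_pow] at h1
    exact sub_eq_zero.1 h1
  have hw0 : ∀ γ, (w.map φ).eval (x γ) ≠ 0 := by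
    intro γ h
    have h1 : IsCoprime (X - C (x γ)) (w.map φ) := hcop'.of_isCoprime_of_dvd_left (by
      rw [hu']; exact hdvdX γ)
    rw [(Polynomial.irreducible_X_sub_C (x γ)).coprime_iff_not_dvd, dvd_iff_isRoot] at h1
    exact h1 h
  have hy0 : ∀ γ, y γ ≠ 0 := fun γ =>
    div_ne_zero (mul_ne_zero (hw0 γ) (pow_ne_zero _ (hX'0 γ))) hκk
  have hy2 : ∀ γ, y γ ^ 2 = (f2.map j).eval (X' γ) := by
    intro γ
    have h1 := eval_model (by omega) hreflk (X' γ) (hX'0 γ)
    have h3 : j α + j κ / X' γ = x γ := by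
      change j α + j κ / (j κ / (x γ - j α)) = x γ
      rw [div_div_cancel₀ hκk]
      ring
    rw [h3, ← hw2] at h1
    change ((w.map φ).eval (x γ) * (X' γ) ^ (g + 1) / j κ) ^ 2 = _
    rw [div_pow, div_eq_iff (pow_ne_zero 2 hκk), mul_comm ((f2.map j).eval (X' γ)), h1]
    ring
  have hev : ∀ γ, a1.eval (X' γ) + b1.eval (X' γ) * y γ = 0 := by
    intro γ
    refine hev1 γ _ ?_
    have h1 : (X - C (x γ)) ∣ a + b * w.map φ := (hdvdX γ).trans (hu' ▸ habw)
    rw [dvd_iff_isRoot, IsRoot.def, eval_add, eval_mul] at h1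
    exact h1
  have hfac := hFAC k (f2.map j) G X' y (2 * N) a1 b1 c1 h2 hX'inj hy0 hy2 hc1 hnorm1 hcop1 hev
  have hprin2 : ((∏ γ, pt (f2.map j) (X' γ) (y γ)) ^ (2 * N)).IsPrincipal := by
    rw [← Finset.prod_pow, ← hfac]
    exact ⟨⟨_, rfl⟩⟩
  -- estimates
  have hX'z : ∀ γ, X' γ = j κ / (j (γ • α - α) + j (γ • κ) / z γ) := by
    intro γ
    change j κ / (x γ - j α) = _
    rw [hxα]
  obtain ⟨E, hE, hprinE⟩ := hODD k M j V.ValueGroup v g (f2.map j) (j B) β1 G X' y
    (Finset.univ.filter fun γ => γ • α - α = 0) N h2 hg (hf2m.map j) hf2sq hf2d' (by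
      intro i
      rw [coeff_map]
      by_cases hi : i ≤ 2 * g + 1
      · exact hB _ (Finset.mem_image_of_mem _ (Finset.mem_range.2 (by omega)))
      · rw [coeff_eq_zero_of_natDegree_lt (by omega), map_zero, map_zero]
        exact zero_le) hβ11 (hβ0.mono (hβ1 _ (Finset.mem_insert_self _ _))) hN hy0 hy2 (by
      intro γ hγ
      rw [Finset.mem_filter] at hγ
      rw [hX'z, hγ.2, map_zero, zero_add]
      have h1 := (hββκ γ).trans_lt (hvz γ)
      have hκγ : j (γ • κ) ≠ 0 := (map_ne_zero j).2 (hsmul0 γ κ hκ)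
      have hvκ : v (j κ) ≠ 0 := (v.ne_zero_iff).2 hκk
      have hvκγ : v (j (γ • κ)) ≠ 0 := (v.ne_zero_iff).2 hκγ
      rw [map_div₀, map_mul, map_div₀, map_mul, div_lt_iff₀ (zero_lt_iff.2 hvκ)] at h1
      rw [map_div₀, map_div₀, lt_div_iff₀ (by
        rw [zero_lt_iff]
        exact div_ne_zero hvκγ ((v.ne_zero_iff).2 (hz0 γ)))]
      rw [← mul_div_assoc, div_lt_iff₀ (zero_lt_iff.2 ((v.ne_zero_iff).2 (hz0 γ)))]
      rw [mul_comm (v (j κ))]
      exact h1) (by
      intro γ hγ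
      have hγ' : γ • α - α ≠ 0 := by
        intro h
        exact hγ (Finset.mem_filter.2 ⟨Finset.mem_univ _, h⟩)
      obtain ⟨h1, h3, h4⟩ := hβγ γ hγ' (z γ) ((hββγ γ).trans_lt (hvz γ))
      have h5 : v (j (κ / (γ • α - α))) ≤ v (j β1) := hβ1 _ (Finset.mem_insert_of_mem
        (Finset.mem_image_of_mem (fun γ : G => κ / (γ • α - α)) (Finset.mem_univ γ)))
      refine ⟨j (κ / (γ • α - α)), ?_, h5, ?_, ?_⟩
      · rw [Polynomial.eval_map_apply, hroot2 γ hγ', map_zero]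
      · rw [hX'z, h3]
        exact h5
      · rw [← map_pow v (y γ / (X' γ - j (κ / (γ • α - α)))) 2, div_pow, hy2, hX'z]
        rw [map_mul, map_mul, map_pow, map_pow] at h4
        exact h4) hprin2
  obtain ⟨f2', a2, b2, c2, hf2', hc2, hfin2⟩ := hNORM k (f2.map j) G X' y E h2 hf2sq hy2 hE hprinE
  have hPe := hP X' E f2' a2 b2 c2 hE hf2' hc2 hfin2
  have hMe := hQ1 z (by
    intro γ h
    apply hden γ
    have := hz0 γ
    field_simp
    linear_combination h) (left_ne_zero_of_mul hsP)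
  apply hMe
  have hfun : (fun i => (j κ * z i + 0) / (j (i • α - α) * z i + j (i • κ))) = X' := by
    funext γ
    rw [hX'z, add_zero]
    have h1 := hz0 γ
    have h3 := hden γ
    have h4 : j (γ • α - α) * z γ + j (γ • κ) ≠ 0 := by
      intro h
      apply h3
      field_simp
      linear_combination h
    rw [div_eq_div_iff h4 h3]
    field_simp
  rw [hfun]
  exact hPe

end Pool.Agent.H13.EV
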