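import Pool.Agent.H13.EV.Defs
import Pool.Agent.H13.HP.NT

/-!
# NT: no torsion in the kernel of reduction, both characteristics
-/

open Polynomial

namespace Pool.Agent.H13.EV

open Pool.Agent.H62.HE Pool.Agent.H14.HE Pool.Agent.H13.HP

universe u

/-- a generator from the norm -/
lemma II_eq_span {k : Type u} [Field k] {f U w a b : k[X]} {c : k} (hc : c ≠ 0) (hU0 : U ≠ 0)
    (hU : U ∣ w ^ 2 - f) (h : U ∣ a + b * w) (hn : a ^ 2 - f * b ^ 2 = C c * U) :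
    II f U w = Submodule.span (HR k f) {(⟨a, b⟩ : HR k f)} := by
  change II f U w = Ideal.span {(⟨a, b⟩ : HR k f)}
  obtain ⟨r, hr⟩ := hU
  obtain ⟨s, hs⟩ := h
  have hcc : (C c⁻¹ : k[X]) * C c = 1 := by rw [← C_mul, inv_mul_cancel₀ hc, C_1]
  apply le_antisymm
  · refine Ideal.span_le.2 ?_
    rintro z (rfl | rfl)
    · rw [SetLike.mem_coe, Ideal.mem_span_singleton]
      refine ⟨⟨C c⁻¹ * a, - (C c⁻¹ * b)⟩, ?_⟩
      ext1
      · simp only [QuadraticAlgebra.re_mul]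
        linear_combination (-C c⁻¹) * hn - U * hcc
      · simp only [QuadraticAlgebra.im_mul]
        ring
    · rw [SetLike.mem_coe, Ideal.mem_span_singleton]
      refine ⟨⟨C c⁻¹ * (b * r - w * s), C c⁻¹ * s⟩, ?_⟩
      have e1 : a * (b * r - w * s) + f * b * s = - (C c * w) := by
        apply mul_left_cancel₀ hU0
        linear_combination (-(a * b)) * hr + (a * w - f * b) * hs - w * hn
      have e2 : a * s + b * (b * r - w * s) = C c := by
        apply mul_left_cancel₀ hU0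
        linear_combination (-(b ^ 2)) * hr - (a - b * w) * hs + hn
      ext1
      · simp only [QuadraticAlgebra.re_mul]
        linear_combination (-C c⁻¹) * e1 + w * hcc
      · simp only [QuadraticAlgebra.im_mul]
        linear_combination (-C c⁻¹) * e2 - hcc
  · rw [Ideal.span_singleton_le_iff_mem]
    have e : (⟨a, b⟩ : HR k f) = ⟨s, 0⟩ * ⟨U, 0⟩ + ⟨b, 0⟩ * ⟨-w, 1⟩ := by
      ext1
      · simp only [QuadraticAlgebra.re_mul, QuadraticAlgebra.re_add]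
        linear_combination hs
      · simp only [QuadraticAlgebra.im_mul, QuadraticAlgebra.im_add]
        ring
    rw [e]
    exact Ideal.add_mem _ (Ideal.mul_mem_left _ _ (Ideal.subset_span (by simp)))
      (Ideal.mul_mem_left _ _ (Ideal.subset_span (by simp)))

/-- scaling -/
lemma nt_core2 (hIDL : Pool.Agent.H13.HP.T_IDL.{u}) (k : Type u) [Field k] (h2 : (2 : k) ≠ 0) (Γ₀ : Type u)
    [LinearOrderedCommGroupWithZero Γ₀] (v : Valuation k Γ₀) (n : ℕ) (f : k[X]) (ρ μ : k)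
    (hρ : ρ ≠ 0) (hμ : μ ≠ 0)
    (hdesc : ∀ (N : ℕ) (U W a b : k[X]) (c : k), 1 ≤ N → 1 ≤ U.natDegree → U.coeff 0 = 1 →
      (∀ i, 1 ≤ i → v (U.coeff i) < v μ ^ (2 * i)) → IsCoprime U W →
      U ^ N ∣ W ^ 2 - C (ρ ^ (2 * n)) * f.comp (C (ρ ^ 2)⁻¹ * X) → c ≠ 0 →
      a ^ 2 - C (ρ ^ (2 * n)) * f.comp (C (ρ ^ 2)⁻¹ * X) * b ^ 2 = C c * U ^ N →
      U ^ N ∣ a + b * W →
      ∃ (a' b' : k[X]) (c' : k), c' ≠ 0 ∧
        a' ^ 2 - C (ρ ^ (2 * n)) * f.comp (C (ρ ^ 2)⁻¹ * X) * b' ^ 2 = C c' * U ∧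
        U ∣ a' + b' * W)
    (ι : Type u) [Fintype ι] [Nonempty ι] (x : ι → k) (hx : ∀ i, v ((μ * ρ) ^ 2)⁻¹ < v (x i))
    (w : k[X]) (N : ℕ) (hN : 1 ≤ N) (hu : (∏ i, (X - C (x i))) ∣ w ^ 2 - f)
    (hcop : IsCoprime (∏ i, (X - C (x i))) w)
    (hprin : (II f (∏ i, (X - C (x i))) w ^ N).IsPrincipal) :
    (II f (∏ i, (X - C (x i))) w).IsPrincipal := by
  classical
  have hu0 : (∏ i, (X - C (x i)) : k[X]) ≠ 0 := (monic_prod_of_monic _ _ fun i _ => monic_X_sub_C _).ne_zero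
  obtain ⟨W, a, b, c, hc, hWw, hWf, haW, hab⟩ := hIDL k f _ w N h2 hu0 hN hu hcop hprin
  have hx0 : ∀ i, x i ≠ 0 := by
    intro i h
    have := hx i
    rw [h, map_zero] at this
    exact not_lt_zero this
  have hcopW : IsCoprime (∏ i, (X - C (x i))) W := by
    obtain ⟨s, hs⟩ := hWw
    have : W = w + (∏ i, (X - C (x i))) * s := by linear_combination hs
    rw [this]
    exact (IsCoprime.add_mul_left_right_iff).2 hcop
  set r : k := (ρ ^ 2)⁻¹ with hr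
  have hr0 : r ≠ 0 := inv_ne_zero (pow_ne_zero 2 hρ)
  have hrρ : r * ρ ^ 2 = 1 := inv_mul_cancel₀ (pow_ne_zero 2 hρ)
  set φ : k[X] →+* k[X] := compRingHom (C r * X) with hφ
  set ψ : k[X] →+* k[X] := compRingHom (C (ρ ^ 2) * X) with hψ
  have hφC : ∀ y : k, φ (C y) = C y := by intro y; rw [hφ, coe_compRingHom_apply, C_comp]
  have hψC : ∀ y : k, ψ (C y) = C y := by intro y; rw [hψ, coe_compRingHom_apply, C_comp]
  have hφX : φ X = C r * X := by rw [hφ, coe_compRingHom_apply, X_comp]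
  have hψX : ψ X = C (ρ ^ 2) * X := by rw [hψ, coe_compRingHom_apply, X_comp]
  have hψφ : ∀ p, ψ (φ p) = p := by
    intro p
    have : (ψ.comp φ) = RingHom.id _ := by
      refine Polynomial.ringHom_ext (fun y => ?_) ?_
      · simp [hφC, hψC]
      · rw [RingHom.comp_apply, hφX, map_mul, hψC, hψX, ← mul_assoc, ← C_mul, hrρ, C_1, one_mul]
        rfl
    exact RingHom.congr_fun this p
  have hφf : f.comp (C r * X) = φ f := rfl
  rw [hφf] at hdesc
  set f' : k[X] := C (ρ ^ (2 * n)) * φ f with hf'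
  -- the polynomial U
  set y : ι → k := fun i => (ρ ^ 2 * x i)⁻¹ with hy
  have ht : (0 : Γ₀) < v μ ^ 2 := pow_pos (by rw [zero_lt_iff]; exact (v.ne_zero_iff).2 hμ) 2
  have hyv : ∀ i, v (y i) < v μ ^ 2 := by
    intro i
    have h3 := hx i
    have hz : (0 : Γ₀) < v (ρ ^ 2 * x i) := by
      rw [zero_lt_iff]; exact (v.ne_zero_iff).2 (mul_ne_zero (pow_ne_zero 2 hρ) (hx0 i))
    have h5 : (1 : Γ₀) < v μ ^ 2 * v (ρ ^ 2 * x i) := by
      have h6 : (0 : Γ₀) < v ((μ * ρ) ^ 2) := by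
        rw [zero_lt_iff]; exact (v.ne_zero_iff).2 (pow_ne_zero 2 (mul_ne_zero hμ hρ))
      calc (1 : Γ₀) = v ((μ * ρ) ^ 2) * v (((μ * ρ) ^ 2)⁻¹) := by
            rw [← map_mul, mul_inv_cancel₀ (pow_ne_zero 2 (mul_ne_zero hμ hρ)), map_one]
        _ < v ((μ * ρ) ^ 2) * v (x i) := mul_lt_mul_of_pos_left h3 h6
        _ = v μ ^ 2 * v (ρ ^ 2 * x i) := by
            rw [← map_pow, ← map_mul, ← map_mul]; congr 1; ring
    change v ((ρ ^ 2 * x i)⁻¹) < _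
    rw [map_inv₀]
    calc (v (ρ ^ 2 * x i))⁻¹ = (v (ρ ^ 2 * x i))⁻¹ * 1 := (mul_one _).symm
      _ < (v (ρ ^ 2 * x i))⁻¹ * (v μ ^ 2 * v (ρ ^ 2 * x i)) := by
          refine mul_lt_mul_of_pos_left h5 ?_
          rw [zero_lt_iff]; exact inv_ne_zero hz.ne'
      _ = v μ ^ 2 := by
          rw [mul_comm (v μ ^ 2), ← mul_assoc, inv_mul_cancel₀ hz.ne', one_mul]
  set U : k[X] := ∏ i, (1 - C (y i) * X) with hU
  have hSm : Sm v (v μ ^ 2) U := Sm.prod ht hyv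
  have hUi : ∀ i, 1 ≤ i → v (U.coeff i) < v μ ^ (2 * i) := by
    intro i hi; rw [pow_mul]; exact hSm.2 i hi
  have hy0 : ∀ i, y i ≠ 0 := fun i => inv_ne_zero (mul_ne_zero (pow_ne_zero 2 hρ) (hx0 i))
  have hlin : ∀ i, (1 - C (y i) * X : k[X]).natDegree = 1 := by
    intro i
    have : (1 - C (y i) * X : k[X]) = C (- y i) * X + C 1 := by
      rw [C_neg, C_1]; ring
    rw [this]
    exact natDegree_linear (neg_ne_zero.2 (hy0 i))
  have hlin0 : ∀ i, (1 - C (y i) * X : k[X]) ≠ 0 := by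
    intro i h
    have := hlin i
    rw [h, natDegree_zero] at this
    omega
  have hU1 : 1 ≤ U.natDegree := by
    rw [hU, natDegree_prod _ _ (fun i _ => hlin0 i)]
    simp only [hlin, Finset.sum_const, smul_eq_mul, mul_one]
    exact Finset.card_pos.2 Finset.univ_nonempty
  -- u and U
  set κ : k := ∏ i, (- x i) with hκ
  have hκ0 : κ ≠ 0 := Finset.prod_ne_zero_iff.2 fun i _ => neg_ne_zero.2 (hx0 i)
  have hφu : φ (∏ i, (X - C (x i))) = C κ * U := by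
    rw [map_prod, hκ, map_prod, hU, ← Finset.prod_mul_distrib]
    refine Finset.prod_congr rfl fun i _ => ?_
    rw [map_sub, hφX, hφC]
    have h3 : C r * X = C (x i) * (C (y i) * X) := by
      rw [← mul_assoc, ← C_mul]
      congr 2
      rw [hr, hy]
      field_simp [hx0 i]
    rw [h3, C_neg]; ring
  -- transport
  have hφWf : U ^ N ∣ (C (ρ ^ n) * φ W) ^ 2 - f' := by
    obtain ⟨s, hs⟩ := hWf
    refine ⟨C (ρ ^ (2 * n)) * (C κ ^ N * φ s), ?_⟩
    have h3 := congrArg φ hs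
    rw [map_sub, map_pow, map_mul, map_pow, hφu] at h3
    have h4 : (C (ρ ^ n) : k[X]) ^ 2 = C (ρ ^ (2 * n)) := by
      rw [← C_pow, ← pow_mul, mul_comm]
    rw [mul_pow, h4, hf']
    linear_combination (C (ρ ^ (2 * n)) : k[X]) * h3
  have hφaW : U ^ N ∣ (C (ρ ^ n) * φ a) + φ b * (C (ρ ^ n) * φ W) := by
    obtain ⟨s, hs⟩ := haW
    refine ⟨C (ρ ^ n) * (C κ ^ N * φ s), ?_⟩
    have h3 := congrArg φ hs
    rw [map_add, map_mul, map_mul, map_pow, hφu] at h3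
    linear_combination (C (ρ ^ n) : k[X]) * h3
  have hφab : (C (ρ ^ n) * φ a) ^ 2 - f' * (φ b) ^ 2 = C (ρ ^ (2 * n) * c * κ ^ N) * U ^ N := by
    have h3 := congrArg φ hab
    rw [map_sub, map_pow, map_mul, map_pow, map_mul, map_pow, hφu, hφC] at h3
    have h4 : (C (ρ ^ n) : k[X]) ^ 2 = C (ρ ^ (2 * n)) := by
      rw [← C_pow, ← pow_mul, mul_comm]
    rw [mul_pow, h4, hf', C_mul, C_mul, C_pow (a := κ)]
    linear_combination (C (ρ ^ (2 * n)) : k[X]) * h3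
  have hcop' : IsCoprime U (C (ρ ^ n) * φ W) := by
    have h3 : IsCoprime (φ (∏ i, (X - C (x i)))) (φ W) := hcopW.map φ
    rw [hφu] at h3
    have h4 : IsCoprime U (φ W) := h3.of_mul_left_right
    have h5 : IsUnit (C (ρ ^ n) : k[X]) := isUnit_C.2 (isUnit_iff_ne_zero.2 (pow_ne_zero _ hρ))
    exact (isCoprime_mul_unit_left_right h5 U (φ W)).2 h4
  obtain ⟨a', b', c', hc', hab', hdv⟩ := hdesc N U
    (C (ρ ^ n) * φ W) (C (ρ ^ n) * φ a) (φ b) (ρ ^ (2 * n) * c * κ ^ N) hN hU1 hSm.1 hUi hcop'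
    hφWf (mul_ne_zero (mul_ne_zero (pow_ne_zero _ hρ) hc) (pow_ne_zero _ hκ0)) hφab hφaW
  have h5 : ψ U = C κ⁻¹ * ∏ i, (X - C (x i)) := by
    have h6 := congrArg ψ hφu
    rw [hψφ, map_mul, hψC] at h6
    rw [h6, ← mul_assoc, ← C_mul, inv_mul_cancel₀ hκ0, C_1, one_mul]
  refine ⟨⟨(⟨ψ a', C (ρ ^ n) * ψ b'⟩ : HR k f), ?_⟩⟩
  refine II_eq_span (c := c' * κ⁻¹) (mul_ne_zero hc' (inv_ne_zero hκ0)) hu0 hu ?_ ?_
  · obtain ⟨s, hs⟩ := hdv
    have h7 := congrArg ψ hs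
    rw [map_add, map_mul, map_mul, map_mul, hψC, hψφ, h5] at h7
    obtain ⟨s', hs'⟩ := hWw
    refine ⟨C κ⁻¹ * ψ s - C (ρ ^ n) * ψ b' * s', ?_⟩
    linear_combination h7 - (C (ρ ^ n) * ψ b') * hs'
  · have h3 := congrArg ψ hab'
    rw [map_sub, map_pow, map_mul, map_pow, hf', map_mul, hψC, hψφ, map_mul, hψC, h5] at h3
    have h4 : (C (ρ ^ n) : k[X]) ^ 2 = C (ρ ^ (2 * n)) := by
      rw [← C_pow, ← pow_mul, mul_comm]
    rw [mul_pow, h4, C_mul]
    linear_combination h3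


/-- descent -/
lemma descend2 (k : Type u) [Field k] (f U W : k[X])
    (hstep : ∀ (l j : ℕ), l.Prime → 1 ≤ j → ∀ (a b : k[X]) (c : k),
      U ^ (l * j) ∣ W ^ 2 - f → c ≠ 0 →
      a ^ 2 - f * b ^ 2 = C c * U ^ (l * j) → U ^ (l * j) ∣ a + b * W →
      ∃ (a' b' : k[X]) (c' : k), c' ≠ 0 ∧ a' ^ 2 - f * b' ^ 2 = C c' * U ^ j ∧
        U ^ j ∣ a' + b' * W) :
    ∀ N : ℕ, 1 ≤ N → ∀ (a b : k[X]) (c : k), U ^ N ∣ W ^ 2 - f → c ≠ 0 →
      a ^ 2 - f * b ^ 2 = C c * U ^ N → U ^ N ∣ a + b * W →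
      ∃ (a' b' : k[X]) (c' : k), c' ≠ 0 ∧ a' ^ 2 - f * b' ^ 2 = C c' * U ∧ U ∣ a' + b' * W := by
  intro N
  induction N using Nat.strong_induction_on with
  | _ N ih =>
    intro hN a b c hW hc hab haW
    rcases Nat.lt_or_ge 1 N with h1 | h1
    · have hq : (N.minFac).Prime := Nat.minFac_prime (by omega)
      obtain ⟨j, hj⟩ : N.minFac ∣ N := Nat.minFac_dvd N
      have hj0 : 1 ≤ j := by
        rcases Nat.eq_zero_or_pos j with h | h
        · rw [h] at hj; omega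
        · exact h
      have hjN : j < N := by
        rw [hj]; nlinarith [hq.two_le]
      rw [hj] at hW hab haW
      obtain ⟨a', b', c', hc', hab', haW'⟩ := hstep N.minFac j hq hj0 a b c hW hc hab haW
      refine ih j hjN hj0 a' b' c' ((pow_dvd_pow U ?_).trans hW) hc' hab' haW'
      nlinarith [hq.two_le]
    · obtain rfl : N = 1 := by omega
      exact ⟨a, b, c, hc, by simpa using hab, by simpa using haW⟩

/-- scaling over `M` -/
lemma nt_scale (hIDL : Pool.Agent.H13.HP.T_IDL.{u}) (k M : Type u) [Field k] [Field M]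
    (h2k : (2 : k) ≠ 0) (φ : M →+* k) (Γ₀ : Type u) [LinearOrderedCommGroupWithZero Γ₀]
    (v : Valuation k Γ₀) (g : ℕ) (f : M[X]) (hfm : f.Monic)
    (hfd : f.natDegree = 2 * g + 1)
    (hmain : ∀ f1 : M[X], f1.Monic → (f.Separable → f1.Separable) → f1.natDegree = 2 * g + 1 →
      (∀ i, v (φ (f1.coeff i)) ≤ 1) →
      ∃ μ : M, μ ≠ 0 ∧ ∀ (U W : k[X]), 1 ≤ U.natDegree → U.coeff 0 = 1 →
        (∀ i, 1 ≤ i → v (U.coeff i) < v (φ μ) ^ (2 * i)) → IsCoprime U W →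
        ∀ N : ℕ, 1 ≤ N → ∀ (a b : k[X]) (c : k), U ^ N ∣ W ^ 2 - f1.map φ → c ≠ 0 →
        a ^ 2 - f1.map φ * b ^ 2 = C c * U ^ N → U ^ N ∣ a + b * W →
        ∃ (a' b' : k[X]) (c' : k), c' ≠ 0 ∧ a' ^ 2 - f1.map φ * b' ^ 2 = C c' * U ∧
          U ∣ a' + b' * W) :
    ∃ β : M, NTok φ v (f.map φ) β := by
  classical
  obtain ⟨c, hc0, hc1, hc⟩ := exists_max φ v ((Finset.range (2 * g + 2)).image f.coeff)
  set ρ : M := c⁻¹ with hρ
  have hρ0 : ρ ≠ 0 := inv_ne_zero hc0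
  have hvc : v (φ c) ≠ 0 := (v.ne_zero_iff).2 ((map_ne_zero φ).2 hc0)
  have hvρ : v (φ ρ) ≤ 1 := by
    rw [hρ, map_inv₀, map_inv₀]
    exact inv_le_one_of_one_le₀ hc1
  have hvρc : v (φ ρ) * v (φ c) = 1 := by
    rw [hρ, map_inv₀, map_inv₀, inv_mul_cancel₀ hvc]
  set n := 2 * g + 1 with hn
  set r : M := (ρ ^ 2)⁻¹ with hr
  have hr0 : r ≠ 0 := inv_ne_zero (pow_ne_zero 2 hρ0)
  have hrρ : r * ρ ^ 2 = 1 := inv_mul_cancel₀ (pow_ne_zero 2 hρ0)
  set f1 : M[X] := C (ρ ^ (2 * n)) * f.comp (C r * X) with hf1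
  have hf1c : ∀ i, f1.coeff i = ρ ^ (2 * n) * (f.coeff i * r ^ i) := by
    intro i; rw [hf1, coeff_C_mul, comp_C_mul_X_coeff]
  have hf1top : f1.coeff n = 1 := by
    rw [hf1c]
    have : f.coeff n = 1 := by rw [← hfd]; exact hfm.coeff_natDegree
    rw [this, one_mul, pow_mul, ← mul_pow, mul_comm, hrρ, one_pow]
  have hf10 : ∀ i, n < i → f1.coeff i = 0 := by
    intro i hi
    rw [hf1c, coeff_eq_zero_of_natDegree_lt (by omega)]; ring
  have hf1d : f1.natDegree = n := by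
    refine le_antisymm (natDegree_le_iff_coeff_eq_zero.2 hf10) (le_natDegree_of_ne_zero ?_)
    rw [hf1top]; exact one_ne_zero
  have hf1m : f1.Monic := by
    rw [Monic, leadingCoeff, hf1d, hf1top]
  have hf1i : ∀ i, v (φ (f1.coeff i)) ≤ 1 := by
    intro i
    rcases lt_trichotomy i n with h | h | h
    · rw [hf1c]
      have : ρ ^ (2 * n) * (f.coeff i * r ^ i) = ρ ^ (2 * (n - i)) * f.coeff i := by
        have h4 : ρ ^ (2 * n) = ρ ^ (2 * (n - i)) * (ρ ^ 2) ^ i := by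
          rw [← pow_mul, ← pow_add]; congr 1; omega
        have h5 : (ρ ^ 2) ^ i * r ^ i = 1 := by rw [← mul_pow, mul_comm, hrρ, one_pow]
        rw [h4]
        linear_combination (ρ ^ (2 * (n - i)) * f.coeff i) * h5
      rw [this, map_mul, map_mul, map_pow, map_pow]
      calc v (φ ρ) ^ (2 * (n - i)) * v (φ (f.coeff i)) ≤ v (φ ρ) * v (φ c) := by
            gcongr
            · exact pow_le_of_le_one zero_le hvρ (by omega)
            · exact hc _ (Finset.mem_image_of_mem _ (Finset.mem_range.2 (by omega)))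
        _ = 1 := hvρc
    · rw [h, hf1top, map_one, map_one]
    · rw [hf10 i h, map_zero, map_zero]; exact zero_le
  have hf1s : f.Separable → f1.Separable := by
    intro hfs
    have h1 : (f.comp (C r * X)).Separable := by
      have h3 : IsCoprime (f.comp (C r * X)) ((derivative f).comp (C r * X)) :=
        (show IsCoprime f (derivative f) from hfs).map (compRingHom (C r * X))
      rw [Polynomial.Separable, derivative_comp]
      have h4 : derivative (C r * X : M[X]) = C r := by simp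
      rw [h4]
      have h5 : IsUnit (C r : M[X]) := isUnit_C.2 (isUnit_iff_ne_zero.2 hr0)
      exact (isCoprime_mul_unit_left_right h5 _ _).2 h3
    have h6 : IsUnit (C (ρ ^ (2 * n)) : M[X]) :=
      isUnit_C.2 (isUnit_iff_ne_zero.2 (pow_ne_zero _ hρ0))
    rw [hf1]
    exact h1.of_dvd (h6.mul_left_dvd.2 dvd_rfl)
  obtain ⟨μ, hμ, hμm⟩ := hmain f1 hf1m hf1s hf1d hf1i
  have hmap1 : f1.map φ = C (φ ρ ^ (2 * n)) * (f.map φ).comp (C (φ ρ ^ 2)⁻¹ * X) := by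
    rw [hf1, Polynomial.map_mul, Polynomial.map_comp, Polynomial.map_C, Polynomial.map_mul,
      Polynomial.map_C, Polynomial.map_X, hr, map_inv₀ φ, map_pow φ, map_pow φ]
  refine ⟨((μ * ρ) ^ 2)⁻¹, ?_⟩
  intro m x hx w N hN hu hcop hprin
  rcases Nat.eq_zero_or_pos m with hm | hm
  · subst hm
    have h1 : II (f.map φ) (∏ i : Fin 0, (X - C (x i))) w = ⊤ := by
      rw [Finset.univ_eq_empty, Finset.prod_empty, Ideal.eq_top_iff_one]
      exact Ideal.subset_span (Or.inl rfl)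
    rw [h1]
    exact ⟨⟨1, by rw [← Ideal.span, Ideal.span_singleton_one]⟩⟩
  have : Nonempty (ULift.{u} (Fin m)) := ⟨⟨⟨0, hm⟩⟩⟩
  have hprod : ∏ i, (X - C (x i)) = ∏ i : ULift.{u} (Fin m), (X - C (x i.down)) := by
    rw [← Equiv.prod_comp Equiv.ulift.{u} (fun i : Fin m => X - C (x i))]
    rfl
  rw [hprod] at hu hcop hprin ⊢
  refine nt_core2 hIDL k h2k Γ₀ v n (f.map φ) (φ ρ) (φ μ) ((map_ne_zero φ).2 hρ0)
    ((map_ne_zero φ).2 hμ) ?_ (ULift.{u} (Fin m)) (fun i => x i.down) ?_ w N hN hu hcop hprin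
  · rw [← hmap1]
    intro N U W a b c hN hU1 hU0 hUi hUW hW hc hab haW
    exact hμm U W hU1 hU0 hUi hUW N hN a b c hW hc hab haW
  · intro i
    have h3 := hx i.down
    rw [map_inv₀, map_pow, map_mul] at h3
    exact h3

theorem nt_p (hIDL : Pool.Agent.H13.HP.T_IDL.{u}) (hPP : T_PP.{u})
    (hPL : Pool.Agent.H62.HE.T_PL.{u}) (p : ℕ) [Fact p.Prime] (k M : Type u) [Field k] [Field M]
    [IsAlgClosed k] [CharP k p] (φ : M →+* k) (Γ₀ : Type u) [LinearOrderedCommGroupWithZero Γ₀]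
    (v : Valuation k Γ₀) (g : ℕ) (f : M[X]) (t : M) (ht : 1 < v (φ t)) (hp : p ≠ 2) (hg : 1 ≤ g)
    (hfm : f.Monic) (hfs : f.Separable) (hfd : f.natDegree = 2 * g + 1) :
    ∃ β : M, NTok φ v (f.map φ) β := by
  have h2k : (2 : k) ≠ 0 := by
    intro h
    have h1 : ((2 : ℕ) : k) = 0 := by exact_mod_cast h
    rw [CharP.cast_eq_zero_iff k p] at h1
    exact hp ((Nat.prime_dvd_prime_iff_eq (Fact.out) Nat.prime_two).1 h1)
  refine nt_scale hIDL k M h2k φ Γ₀ v g f hfm hfd ?_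
  intro f1 hf1m hf1s hf1d hf1i
  obtain ⟨μ0, hμ0, hPP'⟩ := hPP p k M φ Γ₀ v g f1 hp hg hf1m (hf1s hfs) hf1d hf1i
  have ht0 : t ≠ 0 := by
    rintro rfl
    rw [map_zero, map_zero] at ht
    exact absurd ht (not_lt.2 zero_le)
  obtain ⟨μ, hμ, hμle, hμlt⟩ : ∃ μ : M, μ ≠ 0 ∧ v (φ μ) ≤ v (φ μ0) ∧ v (φ μ) < 1 := by
    have hvt : v (φ t⁻¹) < 1 := by
      rw [map_inv₀, map_inv₀]
      exact inv_lt_one_of_one_lt₀ ht
    rcases le_total (v (φ μ0)) 1 with h | h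
    · refine ⟨μ0 * t⁻¹, mul_ne_zero hμ0 (inv_ne_zero ht0), ?_, ?_⟩
      · rw [map_mul, map_mul]
        calc v (φ μ0) * v (φ t⁻¹) ≤ v (φ μ0) * 1 := by gcongr
          _ = v (φ μ0) := mul_one _
      · rw [map_mul, map_mul]
        calc v (φ μ0) * v (φ t⁻¹) ≤ 1 * v (φ t⁻¹) := by gcongr
          _ = v (φ t⁻¹) := one_mul _
          _ < 1 := hvt
    · exact ⟨t⁻¹, inv_ne_zero ht0, hvt.le.trans h, hvt⟩
  refine ⟨μ, hμ, ?_⟩
  intro U W hU1 hU0 hUi hUW
  refine descend2 k (f1.map φ) U W ?_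
  intro l j hl hj a b c hW hc hab haW
  have hi : ∀ i, v ((f1.map φ).coeff i) ≤ 1 := fun i => by rw [coeff_map]; exact hf1i i
  have hd : (f1.map φ).natDegree = 2 * g + 1 := by rw [natDegree_map, hf1d]
  by_cases hlp : l = p
  · subst hlp
    exact hPP' (φ μ) ((map_ne_zero φ).2 hμ) hμle hμlt j hj U W a b c hU1 hU0 hUi hUW hW hc hab haW
  · have hnd : ¬ p ∣ l := by
      intro h
      exact hlp ((Nat.prime_dvd_prime_iff_eq (Fact.out) hl).1 h).symm
    exact hPL k Γ₀ v g (f1.map φ) (hf1m.map φ) hd hi (φ μ) ((map_ne_zero φ).2 hμ) hμlt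
      l j hl.one_lt.le hj (by rw [v_nat_eq_one p v hnd]; exact hμlt)
      U W a b c hU1 hU0 hUi hW hc hab haW

theorem nt_0 (hIDL : Pool.Agent.H13.HP.T_IDL.{u})
    (hPL : Pool.Agent.H62.HE.T_PL.{u}) (k M : Type u) [Field k] [Field M]
    [CharZero k] (φ : M →+* k) (Γ₀ : Type u) [LinearOrderedCommGroupWithZero Γ₀]
    (v : Valuation k Γ₀) (g : ℕ) (f : M[X]) (h2 : v 2 < 1)
    (hfm : f.Monic) (hfd : f.natDegree = 2 * g + 1) :
    ∃ β : M, NTok φ v (f.map φ) β := by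
  have h2k : (2 : k) ≠ 0 := two_ne_zero
  refine nt_scale hIDL k M h2k φ Γ₀ v g f hfm hfd ?_
  intro f1 hf1m _ hf1d hf1i
  have h4 : v (4 : k) < 1 := (v_four_lt v h2 Nat.prime_two).trans (by simpa using h2)
  have h4M : (4 : M) ≠ 0 := by
    intro h
    have h1 := congrArg φ h
    rw [map_ofNat, map_zero] at h1
    norm_num at h1
  have hφ4 : φ 4 = 4 := map_ofNat φ 4
  refine ⟨4, h4M, ?_⟩
  intro U W hU1 hU0 hUi hUW
  rw [hφ4] at hUi
  refine descend2 k (f1.map φ) U W ?_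
  intro l j hl hj a b c hW hc hab haW
  have hi : ∀ i, v ((f1.map φ).coeff i) ≤ 1 := fun i => by rw [coeff_map]; exact hf1i i
  have hd : (f1.map φ).natDegree = 2 * g + 1 := by rw [natDegree_map, hf1d]
  exact hPL k Γ₀ v g (f1.map φ) (hf1m.map φ) hd hi 4 (by norm_num) h4
    l j hl.one_lt.le hj (v_four_lt v h2 hl) U W a b c hU1 hU0 hUi hW hc hab haW

end Pool.Agent.H13.EV
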