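import Pool.Agent.H13.EV.PTS
import Pool.Agent.H13.EV.NT
import Pool.Agent.H23.Psi
import Pool.Agent.H23.Val

/-!
# The field `F` and the element `t` in both characteristics
-/

open Polynomial

namespace Pool.Agent.H13.EV

open Pool.Agent.H62.HE Pool.Agent.H13.HP

universe u

/-- the valuation property of `t ∈ F` -/
def VNok {F : Type u} [Field F] (t : F) : Prop := ∀ (k : Type u) [Field k] [IsAlgClosed k]
  (i : F →+* k), ∃ V : ValuationSubring k, 1 < V.valuation (i t) ∧
    ∀ (M : Type u) [Field M] (φ : M →+* k) (tM : M), φ tM = i t → ∀ (g : ℕ) (f : M[X]), 1 ≤ g →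
      f.Monic → f.Separable → f.natDegree = 2 * g + 1 →
      ∃ β : M, NTok φ V.valuation (f.map φ) β

lemma sqok_p (hSQ : T_SQ.{u}) (p : ℕ) [Fact p.Prime] (hp : p ≠ 2) (F : Type u) [Field F]
    [Algebra (ZMod p) F] (t : F) (ht : Transcendental (ZMod p) t) : SQok t := by
  intro Ω M L _ _ _ i j ι A tM htM hA hL
  have hcF : CharP F p := charP_of_injective_algebraMap (algebraMap (ZMod p) F).injective p
  have hcΩ : CharP Ω p := (i.charP_iff i.injective p).1 hcF
  have hcM : CharP M p := (j.charP_iff j.injective p).2 hcΩ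
  let _ : Algebra (ZMod p) M := ZMod.algebra M p
  have htM' : Transcendental (ZMod p) tM := by
    rintro ⟨P, hP0, hP⟩
    apply ht
    refine ⟨P, hP0, ?_⟩
    apply i.injective
    rw [map_zero, aeval_def, Polynomial.hom_eval₂]
    have h1 := congrArg j hP
    rw [map_zero, aeval_def, Polynomial.hom_eval₂] at h1
    have h2 : i.comp (algebraMap (ZMod p) F) = j.comp (algebraMap (ZMod p) M) :=
      Subsingleton.elim _ _
    rw [h2, ← htM]
    exact h1
  obtain ⟨m, n, h0, h1, h2⟩ := hSQ p M L hp ι A tM hA htM' hL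
  refine ⟨_, ?_, h0, h1, h2⟩
  have h3 : tM ∈ Subfield.closure ({tM} : Set M) := Subfield.subset_closure rfl
  exact mul_mem (sub_mem (pow_mem h3 _) (one_mem _)) (sub_mem (pow_mem h3 _) (one_mem _))

lemma sqok_0 (F : Type u) [Field F] [CharZero F] (t : F) : SQok t := by
  classical
  intro Ω M L _ _ _ i j ι A tM htM hA hL
  have hcΩ : CharZero Ω := charZero_of_injective_ringHom i.injective
  have hcM : CharZero M := j.charZero
  have hcL : CharZero L := charZero_of_injective_ringHom ι.injective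
  have hess : Algebra.EssFiniteType ℚ M := by
    have h1 : (⊤ : IntermediateField ℚ M).FG := by
      refine ⟨A, ?_⟩
      rw [eq_top_iff]
      intro x _
      have hx : x ∈ Subfield.closure (A : Set M) := by rw [hA]; trivial
      have h2 : Subfield.closure (A : Set M) ≤
          (IntermediateField.adjoin ℚ (A : Set M)).toSubfield := by
        rw [Subfield.closure_le]
        exact IntermediateField.subset_adjoin ℚ _
      exact h2 hx
    have h3 : Algebra.EssFiniteType ℚ (⊤ : IntermediateField ℚ M) :=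
      IntermediateField.essFiniteType_iff.2 h1
    exact (Algebra.EssFiniteType.iff_of_algEquiv IntermediateField.topEquiv).1 h3
  obtain ⟨g0, hg0, ⟨k, hk⟩, hns⟩ := Pool.Agent.H23.exists_rat_pow_not_isSquare L 2 M
  refine ⟨(g0 : M), ?_, by exact_mod_cast hg0, ⟨k, ?_⟩, hns⟩
  · exact SubfieldClass.ratCast_mem _ g0
  · rw [map_ratCast, ← hk, pow_two]

lemma vnok_p (hIDL : Pool.Agent.H13.HP.T_IDL.{u}) (hPP : T_PP.{u})
    (hPL : Pool.Agent.H62.HE.T_PL.{u}) (hVAL : T_VAL.{u}) (p : ℕ) [Fact p.Prime] (hp : p ≠ 2)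
    (F : Type u) [Field F] [Algebra (ZMod p) F] (t : F) (ht : Transcendental (ZMod p) t) :
    VNok t := by
  intro k _ _ i
  have hcF : CharP F p := charP_of_injective_algebraMap (algebraMap (ZMod p) F).injective p
  have hck : CharP k p := (i.charP_iff i.injective p).1 hcF
  let _ : Algebra (ZMod p) k := ZMod.algebra k p
  have htk : Transcendental (ZMod p) (i t) := by
    rintro ⟨P, hP0, hP⟩
    apply ht
    refine ⟨P, hP0, ?_⟩
    apply i.injective
    rw [map_zero, aeval_def, Polynomial.hom_eval₂]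
    have h2 : i.comp (algebraMap (ZMod p) F) = algebraMap (ZMod p) k := Subsingleton.elim _ _
    rw [h2]
    exact hP
  obtain ⟨V, hV⟩ := hVAL p k (i t) htk
  refine ⟨V, hV, ?_⟩
  intro M _ φ tM htM g f hg hfm hfs hfd
  exact nt_p hIDL hPP hPL p k M φ V.ValueGroup V.valuation g f tM (by rw [htM]; exact hV) hp hg
    hfm hfs hfd

lemma vnok_0 (hIDL : Pool.Agent.H13.HP.T_IDL.{u})
    (hPL : Pool.Agent.H62.HE.T_PL.{u}) (F : Type u) [Field F] [CharZero F] :
    VNok ((2 : F)⁻¹) := by
  intro k _ _ i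
  have hck : CharZero k := charZero_of_injective_ringHom i.injective
  obtain ⟨V, hV2, hV20⟩ := Pool.Agent.H23.exists_valuation_two k
  refine ⟨V, ?_, ?_⟩
  · rw [map_inv₀, map_ofNat, map_inv₀]
    exact (one_lt_inv₀ (zero_lt_iff.2 hV20)).2 hV2
  intro M _ φ tM htM g f hg hfm hfs hfd
  exact nt_0 hIDL hPL k M φ V.ValueGroup V.valuation g f hV2 hfm hfd

end Pool.Agent.H13.EV
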