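import Pool.Agent.H13.EV.Defs

/-!
# The odd degree model attached to a root
-/

open Polynomial

namespace Pool.Agent.H13.EV

universe u

lemma reflect_one_lin {M : Type u} [Field M] (A B : M) :
    (C A + C B * X : M[X]).reflect 1 = C A * X + C B := by
  rw [reflect_add, reflect_C_mul, reflect_C]
  have h1 : (X : M[X]).reflect 1 = 1 := by
    rw [← pow_one (X : M[X]), ← C_1 (R := M), ← one_mul ((X : M[X]) ^ 1), ← C_1 (R := M),
      reflect_C_mul_X_pow]
    simp
  rw [h1, pow_one, mul_one]

lemma reflect_prod_lin {M : Type u} [Field M] {ι : Type*} (s : Finset ι) (p : ι → M[X])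
    (hp : ∀ i ∈ s, (p i).natDegree ≤ 1) :
    (∏ i ∈ s, p i).reflect s.card = ∏ i ∈ s, (p i).reflect 1 := by
  classical
  induction s using Finset.induction_on with
  | empty =>
    rw [Finset.prod_empty, Finset.prod_empty, Finset.card_empty]
    have : (C (1 : M)).reflect 0 = C 1 * X ^ 0 := reflect_C 1 0
    simpa using this
  | insert a s ha ih =>
    rw [Finset.prod_insert ha, Finset.prod_insert ha, Finset.card_insert_of_notMem ha, add_comm,
      reflect_mul _ _ (hp a (Finset.mem_insert_self _ _)),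
      ih fun i hi => hp i (Finset.mem_insert_of_mem hi)]
    refine (natDegree_prod_le _ _).trans ?_
    refine (Finset.sum_le_sum fun i hi => hp i (Finset.mem_insert_of_mem hi)).trans ?_
    simp

lemma even_model {M : Type u} [Field M] [DecidableEq M] (R : Finset M) (lc α : M) (hlc : lc ≠ 0)
    (hα : α ∈ R) (g : ℕ) (hR : R.card = 2 * g + 2) (κ : M)
    (hκ : κ = lc * ∏ z ∈ R.erase α, (α - z)) (E : Finset M)
    (hE : E = (R.erase α).image (fun z => κ / (z - α))) :
    κ ≠ 0 ∧ E.card = 2 * g + 1 ∧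
    ((C lc * ∏ z ∈ R, (X - C z)).comp (C α + C κ * X)).reflect (2 * g + 2) =
      C (κ ^ 2) * ∏ e ∈ E, (X - C e) ∧
    ∀ z0 : M, z0 ≠ 0 → (C lc * ∏ z ∈ R, (X - C z)).eval (α + κ / z0) =
      κ ^ 2 / z0 ^ (2 * g + 2) * ∏ e ∈ E, (z0 - e) := by
  have hne : ∀ z ∈ R.erase α, α - z ≠ 0 := fun z hz => sub_ne_zero.2 (Finset.ne_of_mem_erase hz).symm
  have hprod0 : ∏ z ∈ R.erase α, (α - z) ≠ 0 := Finset.prod_ne_zero_iff.2 hne
  have hκ0 : κ ≠ 0 := by rw [hκ]; exact mul_ne_zero hlc hprod0
  have hinj : Set.InjOn (fun z => κ / (z - α)) (R.erase α : Set M) := by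
    intro z hz z' hz' h
    have h1 : z - α ≠ 0 := by
      intro h0; exact hne z hz (by rw [← neg_sub, h0, neg_zero])
    have h2 : z' - α ≠ 0 := by
      intro h0; exact hne z' hz' (by rw [← neg_sub, h0, neg_zero])
    simp only at h
    rw [div_eq_div_iff h1 h2] at h
    have h3 := mul_left_cancel₀ hκ0 h
    linear_combination -h3
  have hcardE : E.card = 2 * g + 1 := by
    rw [hE, Finset.card_image_of_injOn hinj, Finset.card_erase_of_mem hα, hR]
    omega
  have hprodE : ∀ F : M → M[X], ∏ e ∈ E, F e = ∏ z ∈ R.erase α, F (κ / (z - α)) := by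
    intro F
    rw [hE, Finset.prod_image]
    intro z hz z' hz' h
    exact hinj hz hz' h
  have hprodE' : ∀ F : M → M, ∏ e ∈ E, F e = ∏ z ∈ R.erase α, F (κ / (z - α)) := by
    intro F
    rw [hE, Finset.prod_image]
    intro z hz z' hz' h
    exact hinj hz hz' h
  refine ⟨hκ0, hcardE, ?_, ?_⟩
  · rw [mul_comp, C_comp, reflect_C_mul, prod_comp, ← hR, reflect_prod_lin]
    · have h1 : ∀ z ∈ R, ((X - C z : M[X]).comp (C α + C κ * X)).reflect 1 =
          C (α - z) * X + C κ := by
        intro z _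
        rw [← reflect_one_lin]
        congr 1
        rw [sub_comp, X_comp, C_comp, C_sub]
        ring
      rw [Finset.prod_congr rfl h1, ← Finset.mul_prod_erase R _ hα, sub_self, C_0, zero_mul,
        zero_add, hprodE]
      have h2 : ∀ z ∈ R.erase α, (C (α - z) * X + C κ : M[X]) =
          C (α - z) * (X - C (κ / (z - α))) := by
        intro z hz
        have h3 := hne z hz
        have h4 : κ = - ((α - z) * (κ / (z - α))) := by
          have : z - α ≠ 0 := by
            intro h0; exact h3 (by rw [← neg_sub, h0, neg_zero])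
          field_simp
          ring
        conv_lhs => rw [h4]
        rw [C_neg, C_mul (a := α - z)]
        ring
      rw [Finset.prod_congr rfl h2, Finset.prod_mul_distrib]
      have h5 : ∏ z ∈ R.erase α, (C (α - z) : M[X]) = C (∏ z ∈ R.erase α, (α - z)) := by
        rw [map_prod]
      rw [h5]
      have h6 : (C lc : M[X]) * C (∏ z ∈ R.erase α, (α - z)) = C κ := by
        rw [← C_mul, ← hκ]
      rw [C_pow]
      linear_combination (C κ * ∏ z ∈ R.erase α, (X - C (κ / (z - α)) : M[X])) * h6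
    · intro z _
      rw [sub_comp, X_comp, C_comp]
      compute_degree
  · intro z0 hz0
    rw [eval_mul, eval_C, eval_prod, hprodE', ← Finset.mul_prod_erase R _ hα]
    have h1 : ∀ z ∈ R.erase α, eval (α + κ / z0) (X - C z) =
        ((α - z) * z0⁻¹) * (z0 - κ / (z - α)) := by
      intro z hz
      have h3 := hne z hz
      have h4 : z - α ≠ 0 := by
        intro h0; exact h3 (by rw [← neg_sub, h0, neg_zero])
      rw [eval_sub, eval_X, eval_C]
      field_simp
      ring
    rw [Finset.prod_congr rfl h1, Finset.prod_mul_distrib, Finset.prod_mul_distrib,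
      Finset.prod_const, Finset.card_erase_of_mem hα, hR, eval_sub, eval_X, eval_C]
    have h6 : lc * ∏ z ∈ R.erase α, (α - z) = κ := hκ.symm
    have h7 : 2 * g + 2 - 1 = 2 * g + 1 := by omega
    rw [h7]
    have h8 : z0⁻¹ ^ (2 * g + 1) * z0⁻¹ = 1 / z0 ^ (2 * g + 2) := by
      rw [← pow_succ, inv_pow, one_div]
    have h9 : κ ^ 2 / z0 ^ (2 * g + 2) = κ ^ 2 * (1 / z0 ^ (2 * g + 2)) := by ring
    rw [h9, ← h8, add_sub_cancel_left]
    linear_combination (κ * z0⁻¹ * z0⁻¹ ^ (2 * g + 1) * ∏ z ∈ R.erase α, (z0 - κ / (z - α))) * h6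

end Pool.Agent.H13.EV
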