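import Pool.Agent.H13.EV.MODEL
import Pool.Agent.H13.HP.PTS
import Pool.Agent.H23.NonSq

/-!
# PTS for even degree
-/

open Polynomial

namespace Pool.Agent.H13.EV

open Pool.Agent.H62.HE Pool.Agent.H62.HE.PTSm Pool.Agent.H13.HP

universe u

/-- the square class property of `t ∈ F` -/
def SQok {F : Type u} [Field F] (t : F) : Prop := ∀ (Ω M L : Type u) [Field Ω] [Field M] [Field L]
  (i : F →+* Ω) (j : M →+* Ω) (ι : M →+* L) (A : Finset M) (tM : M), j tM = i t →
  Subfield.closure (A : Set M) = ⊤ → Finite (Lˣ ⧸ (powMonoidHom 2 : Lˣ →* Lˣ).range) →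
  ∃ g0 ∈ Subfield.closure ({tM} : Set M), g0 ≠ 0 ∧ IsSquare (ι g0) ∧ ¬ IsSquare g0

/-- the square roots of the linear factors -/
lemma exists_roots (hTAU : T_TAU.{u})
    {F Ω Ωa : Type u} [Field F] [Field Ω] [Field Ωa]
    [IsAlgClosed Ωa] [Algebra F Ω] (j : Ω →+* Ωa)
    (Γ : Subgroup (Ω ≃ₐ[F] Ω)) (M : Subfield Ω) (h2M : (2 : M) ≠ 0) [Infinite M]
    (hM : ∀ γ ∈ Γ, ∀ x ∈ M, γ x ∈ M)
    (L : IntermediateField F Ω) (hfin : Finite (GG Γ M hM))
    (hML : ∀ x ∈ M, x ∈ L)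
    (hcl : Finite (Lˣ ⧸ (powMonoidHom 2 : Lˣ →* Lˣ).range)) (Z : Finset M) (g0 : M)
    (hg0M : g0 ≠ 0) (hg0G : ∀ g : GG Γ M hM, g • g0 = g0)
    (hg0L : ∃ k : L, (g0 : Ω) = (k : Ω) * k) (hns : ¬ IsSquare g0) :
    ∃ τ : Ωa ≃+* Ωa, (∀ x ∈ M, τ (j x) = j x) ∧ ∀ S : Finset M, ∃ q : M, ∀ s ∈ S, ∀ z ∈ Z,
      ∃ l : Ω, l ∈ L ∧ l ^ 2 = ((q + s - z : M) : Ω) ∧ l ≠ 0 ∧
        ∀ γ : Γ, τ (j ((γ : Ω ≃ₐ[F] Ω) l)) = - j ((γ : Ω ≃ₐ[F] Ω) l) := by
  classical
  let ι : M →+* L :=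
    { toFun := fun x => ⟨(x : Ω), hML _ x.2⟩
      map_one' := rfl
      map_mul' := fun _ _ => rfl
      map_zero' := rfl
      map_add' := fun _ _ => rfl }
  obtain ⟨k, hk'⟩ := hg0L
  have hk : ι g0 = k * k := Subtype.ext hk'
  let _ : Algebra M Ωa := (j.comp M.subtype).toAlgebra
  obtain ⟨τ, ψ, hψ, hψ1'⟩ := hTAU M Ωa g0 h2M hns
  have hτM : ∀ x ∈ M, τ (j x) = j x := fun x hx => τ.commutes ⟨x, hx⟩
  refine ⟨τ.toRingEquiv, hτM, fun S => ?_⟩
  let g1 : Mˣ := Units.mk0 g0 hg0M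
  have hψ1 : ψ g1 = -1 := hψ1' g1 rfl
  let χ1 : Mˣ →* (Lˣ ⧸ (powMonoidHom 2 : Lˣ →* Lˣ).range) :=
    (QuotientGroup.mk' _).comp (Units.map (ι : M →* L))
  let χ2 : Mˣ →* (GG Γ M hM → ℤˣ) :=
    MonoidHom.pi fun g => ψ.comp (Units.map (MulSemiringAction.toRingHom (GG Γ M hM) M g : M →* M))
  have hχ1 : χ1 g1 = 1 := by
    change (QuotientGroup.mk ((Units.map (ι : M →* L)) g1) :
      Lˣ ⧸ (powMonoidHom 2 : Lˣ →* Lˣ).range) = 1
    rw [QuotientGroup.eq_one_iff]
    have hk0 : k ≠ 0 := by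
      intro h
      rw [h, mul_zero, map_eq_zero] at hk
      exact hg0M hk
    refine ⟨Units.mk0 k hk0, ?_⟩
    ext
    have : ((Units.map (ι : M →* L) g1 : Lˣ) : L) = ι g0 := rfl
    rw [this, hk, powMonoidHom_apply, Units.val_pow_eq_pow_val, Units.val_mk0, pow_two]
  have hχ2 : ∀ g, χ2 g1 g = -1 := by
    intro g
    have h1 : (Units.map (MulSemiringAction.toRingHom (GG Γ M hM) M g : M →* M)) g1 = g1 := by
      ext
      exact congrArg Subtype.val (hg0G g)
    change ψ ((Units.map (MulSemiringAction.toRingHom (GG Γ M hM) M g : M →* M)) g1) = -1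
    rw [h1, hψ1]
  obtain ⟨q, hq⟩ := Pool.Agent.H13.HP.exists_translate
    (G := (Lˣ ⧸ (powMonoidHom 2 : Lˣ →* Lˣ).range) × (GG Γ M hM → ℤˣ)) (χ1.prod χ2)
    (Finset.image₂ (fun s z => s - z) S Z) g1
  refine ⟨q, fun s hs z hz => ?_⟩
  obtain ⟨x, hx, hχ⟩ := hq (s - z) (Finset.mem_image₂_of_mem hs hz)
  have h1 : χ1 x = χ1 g1 := congrArg Prod.fst hχ
  have h2 : χ2 x = χ2 g1 := congrArg Prod.snd hχ
  rw [hχ1] at h1
  change (QuotientGroup.mk ((Units.map (ι : M →* L)) x) :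
    Lˣ ⧸ (powMonoidHom 2 : Lˣ →* Lˣ).range) = 1 at h1
  rw [QuotientGroup.eq_one_iff] at h1
  obtain ⟨t, ht⟩ := h1
  have hxz : (x : M) = q + s - z := by rw [hx]; ring
  have hl2 : (((t : L) : Ω)) ^ 2 = ((x : M) : Ω) := by
    have h3 := congrArg (fun a : Lˣ => ((a : L) : Ω)) ht
    exact h3
  refine ⟨((t : L) : Ω), (t : L).2, by rw [hl2, hxz], ?_, ?_⟩
  · intro h
    apply t.ne_zero
    exact_mod_cast h
  · intro γ
    let g : GG Γ M hM := ⟨res Γ M hM γ, γ, rfl⟩
    have h3 : χ2 x g = -1 := by rw [h2, hχ2]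
    change ψ ((Units.map (MulSemiringAction.toRingHom (GG Γ M hM) M g : M →* M)) x) = -1 at h3
    have h4 := hψ ((Units.map (MulSemiringAction.toRingHom (GG Γ M hM) M g : M →* M)) x)
      (j ((γ : Ω ≃ₐ[F] Ω) (t : L))) (by
        rw [← map_pow, ← map_pow, hl2]
        have h5 := (smul_coe Γ M hM g γ rfl (x : M)).symm
        rw [h5]
        rfl)
    rw [h3] at h4
    change τ (j ((γ : Ω ≃ₐ[F] Ω) (t : L))) = _
    rw [h4]
    simp

/-- the points -/
theorem pts (hTAU : T_TAU.{u}) (F : Type u) [Field F] (h2 : (2 : F) ≠ 0) (t : F)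
    (htinf : Function.Injective (fun n : ℕ => t ^ n)) (hSQ : SQok t) (e : ℕ) (σ : Fin e → (SeparableClosure F ≃ₐ[F] SeparableClosure F))
    (f : (KK F σ)[X]) (g : ℕ) (hfd : f.natDegree = 2 * g + 2) (hsep : f.Separable)
    (T : Finset (KK F σ)) :
    ∃ (M : Subfield (SeparableClosure F)) (G : Type u) (_ : Group G) (_ : Fintype G)
      (_ : MulSemiringAction G M), FaithfulSMul G M ∧
      (∀ s ∈ T, (s : SeparableClosure F) ∈ M) ∧
      (∃ tM : M, (tM : SeparableClosure F) = algebraMap F (SeparableClosure F) t ∧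
        ∀ g : G, g • tM = tM) ∧
      ∃ (fM : M[X]) (r α κ : M) (f2 : M[X]),
        fM.map M.subtype = f.map (algebraMap (KK F σ) (SeparableClosure F)) ∧
        (∀ g : G, fM.map (MulSemiringAction.toRingHom G M g) = fM) ∧
        r ^ 2 = fM.leadingCoeff ∧ fM.eval α = 0 ∧ κ ≠ 0 ∧ f2.Monic ∧ f2.Separable ∧
        f2.natDegree = 2 * g + 1 ∧
        (fM.comp (C α + C κ * X)).reflect (2 * g + 2) = C (κ ^ 2) * f2 ∧
        ∀ S : Finset M, ∃ q : M, ∀ s ∈ S, q + s ≠ 0 →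
          Function.Injective (fun g : G => g • (α + κ / (q + s))) →
          ∃ (u w : (KK F σ)[X])
            (τ : AlgebraicClosure (SeparableClosure F) ≃+* AlgebraicClosure (SeparableClosure F)),
            u.map (algebraMap (KK F σ) (SeparableClosure F)) =
              ∏ g : G, (X - C ((g • (α + κ / (q + s)) : M) : SeparableClosure F)) ∧
            u ∣ w ^ 2 - f ∧ IsCoprime u w ∧
            (∀ x ∈ M, τ (algebraMap (SeparableClosure F) _ x) =
              algebraMap (SeparableClosure F) _ x) ∧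
            (∀ i, τ (algebraMap (SeparableClosure F) _ (u.coeff i : KK F σ)) =
              algebraMap (SeparableClosure F) _ (u.coeff i : KK F σ)) ∧
            (∀ i, τ (algebraMap (SeparableClosure F) _ (w.coeff i : KK F σ)) =
              - algebraMap (SeparableClosure F) _ (w.coeff i : KK F σ)) := by
  classical
  set Ω := SeparableClosure F with hΩ
  set j : Ω →+* AlgebraicClosure Ω := algebraMap Ω (AlgebraicClosure Ω) with hj
  set Γ : Subgroup (Ω ≃ₐ[F] Ω) := Subgroup.closure (Set.range σ) with hΓ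
  set φ := algebraMap (KK F σ) Ω with hφ
  have h2Ω : (2 : Ω) ≠ 0 := by
    intro h
    apply h2
    apply (algebraMap F Ω).injective
    rw [map_ofNat, map_zero]
    exact h
  have hfg : Γ.FG := ⟨Finset.univ.image σ, by rw [Finset.coe_image, Finset.coe_univ, Set.image_univ]⟩
  have hfix : ∀ γ ∈ Γ, ∀ x : KK F σ, γ (x : Ω) = x := by
    intro γ hγ x
    exact (IntermediateField.mem_fixedField_iff _ _).1 x.2 γ hγ
  have hfmap : ∀ γ ∈ Γ, (f.map φ).map (γ : Ω →+* Ω) = f.map φ := by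
    intro γ hγ
    rw [Polynomial.map_map]
    congr 1
    exact RingHom.ext fun x => hfix γ hγ x
  have hf0 : f ≠ 0 := by
    rintro rfl
    rw [natDegree_zero] at hfd
    omega
  have hfm0 : f.map φ ≠ 0 := (Polynomial.map_ne_zero_iff φ.injective).2 hf0
  have hlc0 : f.leadingCoeff ≠ 0 := leadingCoeff_ne_zero.2 hf0
  set tΩ : Ω := algebraMap F Ω t with htΩ
  set Z := (f.map φ).roots with hZ
  have : NeZero ((2 : ℕ) : Ω) := ⟨by exact_mod_cast h2Ω⟩
  obtain ⟨rΩ, hrΩ⟩ : ∃ rΩ : Ω, rΩ ^ 2 = φ f.leadingCoeff :=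
    IsSepClosed.exists_pow_nat_eq (φ f.leadingCoeff) 2
  set A : Finset Ω := ({rΩ, -rΩ, tΩ} : Finset Ω) ∪ (Z.toFinset ∪ (T.image (fun t : KK F σ => φ t) ∪
    (Finset.range (f.natDegree + 1)).image fun i => φ (f.coeff i))) with hA'
  have hA : ∀ γ ∈ Γ, ∀ a ∈ A, γ a ∈ A := by
    intro γ hγ a ha
    rw [hA', Finset.mem_union, Finset.mem_union, Finset.mem_union] at ha ⊢
    rcases ha with ha | ha | ha | ha
    · left
      have hγr : γ rΩ = rΩ ∨ γ rΩ = - rΩ := by
        apply sq_eq_sq_iff_eq_or_eq_neg.1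
        rw [← map_pow, hrΩ]
        exact hfix γ hγ _
      rw [Finset.mem_insert, Finset.mem_insert, Finset.mem_singleton] at ha ⊢
      rcases ha with rfl | rfl | rfl
      · rcases hγr with h | h
        · left; exact h
        · right; left; exact h
      · rw [map_neg]
        rcases hγr with h | h
        · right; left; rw [h]
        · left; rw [h, neg_neg]
      · right; right
        exact γ.commutes t
    · right; left
      rw [Multiset.mem_toFinset, hZ, Polynomial.mem_roots hfm0, IsRoot.def] at ha ⊢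
      have h1 := Polynomial.eval_map_apply (γ : Ω →+* Ω) (p := f.map φ) a
      rw [hfmap γ hγ, ha, map_zero] at h1
      exact h1
    · right; right; left
      obtain ⟨t, ht, rfl⟩ := Finset.mem_image.mp ha
      have h1 : γ (φ t) = φ t := hfix γ hγ t
      rw [h1]
      exact ha
    · right; right; right
      obtain ⟨i, hi, rfl⟩ := Finset.mem_image.mp ha
      have h1 : γ (φ (f.coeff i)) = φ (f.coeff i) := hfix γ hγ _
      rw [h1]
      exact ha
  obtain ⟨M, hM, L, hAM, hfin, ⟨B, hB⟩, hML, hL, hcl⟩ := PTSp.exists_fields h2Ω Γ hfg A hA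
  have h2M : (2 : M) ≠ 0 := by
    intro h
    apply h2Ω
    have h1 := congrArg M.subtype h
    rwa [map_ofNat, map_zero] at h1
  have hZM : ∀ z ∈ Z.toFinset, z ∈ M := fun z hz => hAM z (by
    rw [hA', Finset.mem_union, Finset.mem_union]; right; left; exact hz)
  let tM : M := ⟨tΩ, hAM tΩ (by
    rw [hA', Finset.mem_union]; left; simp)⟩
  let rM : M := ⟨rΩ, hAM rΩ (by
    rw [hA', Finset.mem_union]; left; simp)⟩
  have htG : ∀ g : GG Γ M hM, g • tM = tM := by
    rintro ⟨g, γ, rfl⟩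
    apply Subtype.ext
    exact (γ : Ω ≃ₐ[F] Ω).commutes t
  have hcoefM : ∀ i, φ (f.coeff i) ∈ M := by
    intro i
    by_cases hi : i ≤ f.natDegree
    · exact hAM _ (by
        rw [hA', Finset.mem_union, Finset.mem_union, Finset.mem_union]
        right; right; right
        exact Finset.mem_image.mpr ⟨i, Finset.mem_range.mpr (by omega), rfl⟩)
    · rw [Polynomial.coeff_eq_zero_of_natDegree_lt (by omega)]
      exact zero_mem M
  let lcM : M := ⟨φ f.leadingCoeff, hcoefM _⟩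
  -- the roots
  let R : Finset M := Z.toFinset.attach.image fun z => ⟨z.1, hZM z.1 z.2⟩
  have hRZ : R.image (fun x : M => (x : Ω)) = Z.toFinset := by
    ext x
    simp only [R, Finset.mem_image]
    constructor
    · rintro ⟨y, ⟨z, -, rfl⟩, rfl⟩
      exact z.2
    · intro hx
      exact ⟨⟨x, hZM x hx⟩, ⟨⟨x, hx⟩, Finset.mem_attach _ _, rfl⟩, rfl⟩
  have hsplit : (f.map φ).Splits := IsSepClosed.splits_of_separable _ (hsep.map)
  have hnod : Z.Nodup := Polynomial.nodup_roots hsep.map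
  have hcardZ : Z.toFinset.card = 2 * g + 2 := by
    rw [Multiset.toFinset_card_of_nodup hnod, hZ, ← hsplit.natDegree_eq_card_roots, natDegree_map,
      hfd]
  have hcardR : R.card = 2 * g + 2 := by
    rw [← hcardZ, ← hRZ, Finset.card_image_of_injective _ Subtype.val_injective]
  have hRne : R.Nonempty := Finset.card_pos.1 (by omega)
  obtain ⟨α, hα⟩ := hRne
  have hlcM : lcM ≠ 0 := by
    intro h
    have h1 : φ f.leadingCoeff = 0 := congrArg Subtype.val h
    exact hlc0 (φ.injective (by rw [h1, map_zero]))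
  set fM : M[X] := C lcM * ∏ z ∈ R, (X - C z) with hfM
  have hfMmap : fM.map M.subtype = f.map φ := by
    rw [hfM, Polynomial.map_mul, Polynomial.map_C, Polynomial.map_prod]
    have h1 : ∏ z ∈ R, ((X - C z : M[X]).map M.subtype) =
        ∏ z ∈ Z.toFinset, (X - C z) := by
      rw [← hRZ, Finset.prod_image (fun a _ b _ h => Subtype.val_injective h)]
      refine Finset.prod_congr rfl fun z _ => ?_
      rw [Polynomial.map_sub, Polynomial.map_X, Polynomial.map_C]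
      rfl
    rw [h1]
    have h3 := hsplit.eq_prod_roots
    rw [leadingCoeff_map] at h3
    conv_rhs => rw [h3]
    congr 1
    rw [← hZ, Finset.prod, Multiset.toFinset_val, hnod.dedup]
  obtain ⟨hκ0, hcardE, hrefl, heval⟩ := even_model R lcM α hlcM hα g hcardR
    (lcM * ∏ z ∈ R.erase α, (α - z)) rfl _ rfl
  set κ : M := lcM * ∏ z ∈ R.erase α, (α - z) with hκ
  set E : Finset M := (R.erase α).image (fun z => κ / (z - α)) with hE
  set f2 : M[X] := ∏ e ∈ E, (X - C e) with hf2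
  have hf2m : f2.Monic := monic_prod_of_monic _ _ fun e _ => monic_X_sub_C e
  have hf2d : f2.natDegree = 2 * g + 1 := by
    rw [hf2, natDegree_prod_of_monic _ _ fun e _ => monic_X_sub_C e]
    simp [hcardE]
  have hf2s : f2.Separable := by
    rw [hf2]
    exact (Polynomial.separable_prod_X_sub_C_iff' (s := E) (f := fun e => e)).2
      (fun x _ y _ h => h)
  obtain ⟨g0, hg0c, hg00, ⟨k, hk⟩, hns⟩ := hSQ Ω M L (algebraMap F Ω) M.subtype
    { toFun := fun x => (⟨(x : Ω), hML _ x.2⟩ : L)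
      map_one' := rfl
      map_mul' := fun _ _ => rfl
      map_zero' := rfl
      map_add' := fun _ _ => rfl } B tM rfl hB hcl
  have hg0G : ∀ g : GG Γ M hM, g • g0 = g0 := by
    intro g
    have h1 : Subfield.closure ({tM} : Set M) ≤
        (MulSemiringAction.toRingHom (GG Γ M hM) M g).eqLocusField (RingHom.id M) := by
      rw [Subfield.closure_le]
      rintro x rfl
      exact htG g
    exact h1 hg0c
  have hinfM : Infinite M := by
    have hinj : Function.Injective (fun n : ℕ => tM ^ n) := by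
      intro a b hab
      apply htinf
      apply (algebraMap F Ω).injective
      have h1 := congrArg M.subtype hab
      simp only [map_pow] at h1 ⊢
      exact h1
    exact Infinite.of_injective _ hinj
  obtain ⟨τ, hτM, hτ⟩ := exists_roots hTAU j Γ M h2M hM L hfin hML hcl E g0 hg00 hg0G
    ⟨k, congrArg Subtype.val hk⟩ hns
  have hft : Fintype (GG Γ M hM) := Fintype.ofFinite _
  refine ⟨M, GG Γ M hM, inferInstance, hft, inferInstance, faithful Γ M hM, ?_, ⟨tM, rfl, htG⟩,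
    fM, rM, α, κ, f2, hfMmap, ?_, ?_, ?_, hκ0, hf2m, hf2s, hf2d, hrefl, ?_⟩
  · intro t ht
    exact hAM _ (by
      rw [hA', Finset.mem_union, Finset.mem_union, Finset.mem_union]
      right; right; left
      exact Finset.mem_image.mpr ⟨t, ht, rfl⟩)
  · rintro ⟨g, γ, rfl⟩
    apply Polynomial.map_injective M.subtype M.subtype.injective
    rw [Polynomial.map_map, hfMmap]
    conv_rhs => rw [← hfmap γ.1 γ.2, ← hfMmap, Polynomial.map_map]
    rfl
  · have h1 : fM.leadingCoeff = lcM := by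
      rw [hfM, leadingCoeff_mul, leadingCoeff_C,
        (monic_prod_of_monic _ _ fun e _ => monic_X_sub_C e).leadingCoeff, mul_one]
    rw [h1]
    exact Subtype.ext hrΩ
  · rw [hfM, eval_mul, eval_prod, Finset.prod_eq_zero hα (by simp), mul_zero]
  intro S
  obtain ⟨q, hq⟩ := hτ S
  refine ⟨q, fun s hs hz0 hinj => ?_⟩
  set z0 : M := q + s with hz0def
  choose! l hl using hq s hs
  set y0 : Ω := (κ : Ω) / (z0 : Ω) ^ (g + 1) * ∏ e ∈ E, l e with hy0
  have hz0Ω : (z0 : Ω) ≠ 0 := by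
    intro h; exact hz0 (Subtype.ext h)
  have hκΩ : (κ : Ω) ≠ 0 := by
    intro h; exact hκ0 (Subtype.ext h)
  have hmap : ∀ (Y : Type u) [Field Y] (r : Ω →+* Y),
      r y0 = r (κ : Ω) / r (z0 : Ω) ^ (g + 1) * ∏ e ∈ E, r (l e) := by
    intro Y _ r
    rw [hy0, map_mul, map_div₀, map_pow, map_prod]
  have A1 : ∀ γ : Γ, res Γ M hM γ = 1 → (γ : Ω ≃ₐ[F] Ω) y0 = y0 := by
    intro γ hγ
    have h6 := hmap _ ((γ : Ω ≃ₐ[F] Ω) : Ω →+* Ω)
    have h7 : ∀ x : M, ((γ : Ω ≃ₐ[F] Ω) : Ω →+* Ω) (x : Ω) = (x : Ω) := fun x =>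
      hL _ (hML _ x.2) γ hγ
    have h8 : ∀ e ∈ E, ((γ : Ω ≃ₐ[F] Ω) : Ω →+* Ω) (l e) = l e := fun e he =>
      hL _ (hl e he).1 γ hγ
    rw [h7, h7, Finset.prod_congr rfl h8] at h6
    exact h6
  have A2 : y0 ^ 2 = (f.map φ).eval ((α + κ / z0 : M) : Ω) := by
    have h1 := congrArg M.subtype (heval z0 hz0)
    rw [← hfM] at h1
    have h3 : M.subtype (eval (α + κ / z0) fM) = (f.map φ).eval ((α + κ / z0 : M) : Ω) := by
      rw [← hfMmap]
      exact (Polynomial.eval_map_apply M.subtype _).symm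
    rw [← h3, h1, hy0, mul_pow, div_pow, ← Finset.prod_pow, map_mul, map_div₀, map_pow, map_pow,
      map_prod, ← pow_mul]
    congr 1
    · congr 2
      ring
    · refine Finset.prod_congr rfl fun e he => ?_
      exact (hl e he).2.1
  have A3 : y0 ≠ 0 := by
    rw [hy0]
    refine mul_ne_zero (div_ne_zero hκΩ (pow_ne_zero _ hz0Ω)) ?_
    exact Finset.prod_ne_zero_iff.2 fun e he => (hl e he).2.2.1
  have A4 : ∀ γ : Γ, τ (j ((γ : Ω ≃ₐ[F] Ω) y0)) = - j ((γ : Ω ≃ₐ[F] Ω) y0) := by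
    intro γ
    have h6 := hmap _ (j.comp ((γ : Ω ≃ₐ[F] Ω) : Ω →+* Ω))
    have h7 := hmap _ ((τ : AlgebraicClosure Ω →+* AlgebraicClosure Ω).comp
      (j.comp ((γ : Ω ≃ₐ[F] Ω) : Ω →+* Ω)))
    have h8 : ∀ e ∈ E, ((τ : AlgebraicClosure Ω →+* AlgebraicClosure Ω).comp
        (j.comp ((γ : Ω ≃ₐ[F] Ω) : Ω →+* Ω))) (l e) =
        -1 * (j.comp ((γ : Ω ≃ₐ[F] Ω) : Ω →+* Ω)) (l e) := by
      intro e he
      have := (hl e he).2.2.2 γ
      rw [neg_one_mul]
      exact this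
    have h9 : ∀ x : M, ((τ : AlgebraicClosure Ω →+* AlgebraicClosure Ω).comp
        (j.comp ((γ : Ω ≃ₐ[F] Ω) : Ω →+* Ω))) (x : Ω) =
        (j.comp ((γ : Ω ≃ₐ[F] Ω) : Ω →+* Ω)) (x : Ω) := fun x => hτM _ (hM _ γ.2 _ x.2)
    rw [h9, h9, Finset.prod_congr rfl h8, Finset.prod_mul_distrib, Finset.prod_const, hcardE,
      Odd.neg_one_pow ⟨g, rfl⟩] at h7
    change τ (j ((γ : Ω ≃ₐ[F] Ω) y0)) = _ at h7
    change j ((γ : Ω ≃ₐ[F] Ω) y0) = _ at h6
    rw [h7, h6]
    ring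
  obtain ⟨u, w, h1, h2, h3, h4, h5⟩ :=
    PTSp.interp Γ M hM f (α + κ / z0) y0 A1 A2 A3 hinj j τ hτM A4
  exact ⟨u, w, τ, h1, h2, h3, hτM, h4, h5⟩

end Pool.Agent.H13.EV
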